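import Mathlib

set_option autoImplicit false

open scoped RealInnerProductSpace
open Real

namespace Pool.Agent.Helper214_flat

/-- Euclidean three-space. -/
abbrev E3 := EuclideanSpace ℝ (Fin 3)

/-- The unit vector with depth `d` below the horizontal plane and longitude `l`. -/
noncomputable def dir (d l : ℝ) : E3 := !₂[cos d * cos l, cos d * sin l, - sin d]

lemma dir_zero (d l : ℝ) : dir d l 0 = cos d * cos l := by simp [dir]
lemma dir_one (d l : ℝ) : dir d l 1 = cos d * sin l := by simp [dir]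
lemma dir_two (d l : ℝ) : dir d l 2 = - sin d := by simp [dir]

lemma inner_dir (d l d' l' : ℝ) :
    ⟪dir d l, dir d' l'⟫ = cos d * cos d' * cos (l' - l) + sin d * sin d' := by
  rw [PiLp.inner_apply, Fin.sum_univ_three]
  simp only [dir_zero, dir_one, dir_two, real_inner_eq_re_inner, RCLike.inner_apply, conj_trivial,
    cos_sub]
  simp
  ring

lemma norm_dir (d l : ℝ) : ‖dir d l‖ = 1 := by
  have h : ‖dir d l‖ ^ 2 = 1 := by
    rw [← real_inner_self_eq_norm_sq, inner_dir]
    simp only [sub_self, cos_zero, mul_one]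
    nlinarith [cos_sq_add_sin_sq d]
  have h0 : 0 ≤ ‖dir d l‖ := norm_nonneg _
  nlinarith [sq_nonneg (‖dir d l‖ - 1)]

/-- The longitude difference between two directions of depths `a` and `b` at angle `τ`. -/
noncomputable def lam (τ a b : ℝ) : ℝ := arccos ((cos τ - sin a * sin b) / (cos a * cos b))

/-- Longitudes of the directions with depths `d`, consecutive angles `τ` and senses `ε`. -/
noncomputable def lon (τ ε d : ℕ → ℝ) : ℕ → ℝ
  | 0 => 0
  | (k + 1) => lon τ ε d k + ε k * lam (τ k) (d k) (d (k + 1))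

/-- The sequence of directions with depths `d`, consecutive angles `τ` and senses `ε`. -/
noncomputable def W (τ ε d : ℕ → ℝ) (k : ℕ) : E3 := dir (d k) (lon τ ε d k)

lemma cos_lam {τ a b : ℝ} (hτ0 : 0 ≤ τ) (ha0 : 0 ≤ a) (ha : a < π / 2) (hb0 : 0 ≤ b)
    (hb : b < π / 2) (hd : |a - b| ≤ τ) (hs : a + b ≤ π - τ) :
    cos a * cos b * cos (lam τ a b) = cos τ - sin a * sin b := by
  have hca : 0 < cos a := cos_pos_of_mem_Ioo ⟨by linarith [pi_pos], ha⟩
  have hcb : 0 < cos b := cos_pos_of_mem_Ioo ⟨by linarith [pi_pos], hb⟩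
  have hab : 0 < cos a * cos b := mul_pos hca hcb
  have h1 : cos τ ≤ cos (a - b) := by
    rw [← cos_abs (a - b)]
    exact cos_le_cos_of_nonneg_of_le_pi (abs_nonneg _) (by linarith) hd
  have h2 : cos (π - τ) ≤ cos (a + b) :=
    cos_le_cos_of_nonneg_of_le_pi (by linarith) (by linarith) hs
  rw [cos_sub] at h1
  rw [cos_pi_sub, cos_add] at h2
  unfold lam
  rw [cos_arccos]
  · field_simp
  · rw [le_div_iff₀ hab]; linarith
  · rw [div_le_one hab]; linarith

/-- Feasible depth vectors. -/
structure Feas (m : ℕ) (τ d : ℕ → ℝ) : Prop where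
  nonneg : ∀ k ≤ m, 0 ≤ d k
  lt : ∀ k ≤ m, d k < π / 2
  diff : ∀ k < m, |d k - d (k + 1)| ≤ τ k
  sum : ∀ k < m, d k + d (k + 1) ≤ π - τ k

lemma inner_W {m : ℕ} {τ ε d : ℕ → ℝ} (hτ : ∀ k < m, 0 ≤ τ k) (hε : ∀ k < m, ε k = 1 ∨ ε k = -1)
    (hd : Feas m τ d) {k : ℕ} (hk : k < m) : ⟪W τ ε d k, W τ ε d (k + 1)⟫ = cos (τ k) := by
  have h := cos_lam (hτ k hk) (hd.nonneg k hk.le) (hd.lt k hk.le) (hd.nonneg (k + 1) hk)
    (hd.lt (k + 1) hk) (hd.diff k hk) (hd.sum k hk)
  have h2 : lon τ ε d (k + 1) - lon τ ε d k = ε k * lam (τ k) (d k) (d (k + 1)) := by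
    simp [lon]
  unfold W
  rw [inner_dir, h2]
  rcases hε k hk with h3 | h3 <;> rw [h3] <;> simp only [one_mul, neg_mul, cos_neg] <;> linarith

lemma Feas.lerp {m : ℕ} {τ d d' : ℕ → ℝ} (hd : Feas m τ d) (hd' : Feas m τ d') {t : ℝ}
    (h0 : 0 ≤ t) (h1 : t ≤ 1) : Feas m τ (fun k => (1 - t) * d k + t * d' k) where
  nonneg := fun k hk => by
    have := hd.nonneg k hk
    have := hd'.nonneg k hk
    have : 0 ≤ 1 - t := by linarith
    positivity
  lt := fun k hk => by
    have a := hd.lt k hk
    have b := hd'.lt k hk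
    have c : 0 ≤ 1 - t := by linarith
    show (1 - t) * d k + t * d' k < π / 2
    rcases h0.eq_or_lt with h | h
    · subst h; simpa using a
    · nlinarith
  diff := fun k hk => by
    have a := abs_le.1 (hd.diff k hk)
    have b := abs_le.1 (hd'.diff k hk)
    have c : 0 ≤ 1 - t := by linarith
    show |(1 - t) * d k + t * d' k - ((1 - t) * d (k + 1) + t * d' (k + 1))| ≤ τ k
    rw [abs_le]
    constructor <;> nlinarith
  sum := fun k hk => by
    have a := hd.sum k hk
    have b := hd'.sum k hk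
    have c : 0 ≤ 1 - t := by linarith
    show (1 - t) * d k + t * d' k + ((1 - t) * d (k + 1) + t * d' (k + 1)) ≤ π - τ k
    nlinarith

lemma continuousOn_lon {m : ℕ} {τ ε : ℕ → ℝ} {D : ℝ → ℕ → ℝ} {s : Set ℝ}
    (hc : ∀ k ≤ m, ContinuousOn (fun t => D t k) s) (hne : ∀ t ∈ s, ∀ k ≤ m, cos (D t k) ≠ 0) :
    ∀ k ≤ m, ContinuousOn (fun t => lon τ ε (D t) k) s := by
  intro k
  induction k with
  | zero => intro _; exact continuousOn_const
  | succ k ih =>
    intro hk
    have h1 := ih (by omega)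
    have ha := hc k (by omega)
    have hb := hc (k + 1) hk
    refine h1.add (continuousOn_const.mul ?_)
    unfold lam
    refine continuous_arccos.comp_continuousOn ?_
    refine ContinuousOn.div ?_ ?_ ?_
    · exact continuousOn_const.sub
        ((continuous_sin.comp_continuousOn ha).mul (continuous_sin.comp_continuousOn hb))
    · exact (continuous_cos.comp_continuousOn ha).mul (continuous_cos.comp_continuousOn hb)
    · intro t ht
      exact mul_ne_zero (hne t ht k (by omega)) (hne t ht (k + 1) hk)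

lemma continuousOn_W {m : ℕ} {τ ε : ℕ → ℝ} {D : ℝ → ℕ → ℝ} {s : Set ℝ}
    (hc : ∀ k ≤ m, ContinuousOn (fun t => D t k) s) (hne : ∀ t ∈ s, ∀ k ≤ m, cos (D t k) ≠ 0) :
    ∀ k ≤ m, ContinuousOn (fun t => W τ ε (D t) k) s := by
  intro k hk
  have h1 := continuousOn_lon (τ := τ) (ε := ε) hc hne k hk
  have h2 := hc k hk
  unfold W dir
  have h3 : ContinuousOn (fun t => ![cos (D t k) * cos (lon τ ε (D t) k),
      cos (D t k) * sin (lon τ ε (D t) k), - sin (D t k)]) s := by
    refine continuousOn_pi.2 fun i => ?_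
    fin_cases i
    · exact (continuous_cos.comp_continuousOn h2).mul (continuous_cos.comp_continuousOn h1)
    · exact (continuous_cos.comp_continuousOn h2).mul (continuous_sin.comp_continuousOn h1)
    · exact (continuous_sin.comp_continuousOn h2).neg
  exact (PiLp.continuous_toLp 2 _).comp_continuousOn h3

/-- Changing the sense at a joint whose longitude difference is `0` or `π` does not change the
directions. -/
lemma W_update {τ ε d : ℕ → ℝ} {i : ℕ} (hε : ε i = 1 ∨ ε i = -1)
    (h : lam (τ i) (d i) (d (i + 1)) = 0 ∨ lam (τ i) (d i) (d (i + 1)) = π) (k : ℕ) :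
    W τ (Function.update ε i (- ε i)) d k = W τ ε d k := by
  have key : ∀ k, lon τ (Function.update ε i (- ε i)) d k =
      lon τ ε d k - (if i < k then 2 * (ε i * lam (τ i) (d i) (d (i + 1))) else 0) := by
    intro k
    induction k with
    | zero => simp [lon]
    | succ k ih =>
      simp only [lon, ih]
      by_cases hki : k = i
      · subst hki
        simp
        ring
      · rw [Function.update_of_ne hki]
        by_cases hlt : i < k
        · simp [hlt, Nat.lt_succ_of_lt hlt]; ring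
        · have : ¬ i < k + 1 := by omega
          simp [hlt, this]
  unfold W
  rw [key k]
  by_cases hlt : i < k
  · simp only [hlt, if_true]
    unfold dir
    rcases h with h | h
    · rw [h]; simp
    · rw [h]
      rcases hε with h2 | h2 <;> rw [h2]
      · have e1 : lon τ ε d k - 2 * (1 * π) = lon τ ε d k - 2 * π := by ring
        rw [e1, cos_sub_two_pi, sin_sub_two_pi]
      · have e1 : lon τ ε d k - 2 * (-1 * π) = lon τ ε d k + 2 * π := by ring
        rw [e1, cos_add_two_pi, sin_add_two_pi]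
  · simp [hlt]

lemma lam_of_sum {τ a b : ℝ} (ha0 : 0 ≤ a) (ha : a < π / 2) (hb0 : 0 ≤ b) (hb : b < π / 2)
    (hs : a + b = π - τ) : lam τ a b = π := by
  have hca : 0 < cos a := cos_pos_of_mem_Ioo ⟨by linarith [pi_pos], ha⟩
  have hcb : 0 < cos b := cos_pos_of_mem_Ioo ⟨by linarith [pi_pos], hb⟩
  have h1 : cos τ = - cos (a + b) := by rw [hs, cos_pi_sub]; ring
  unfold lam
  rw [h1, cos_add]
  have : (-(cos a * cos b - sin a * sin b) - sin a * sin b) / (cos a * cos b) = -1 := by
    field_simp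
    ring
  rw [this, arccos_neg_one]

lemma lam_of_diff {τ a b : ℝ} (ha0 : 0 ≤ a) (ha : a < π / 2) (hb0 : 0 ≤ b) (hb : b < π / 2)
    (hs : |a - b| = τ) : lam τ a b = 0 := by
  have hca : 0 < cos a := cos_pos_of_mem_Ioo ⟨by linarith [pi_pos], ha⟩
  have hcb : 0 < cos b := cos_pos_of_mem_Ioo ⟨by linarith [pi_pos], hb⟩
  have h1 : cos τ = cos (a - b) := by rw [← hs, cos_abs]
  unfold lam
  rw [h1, cos_sub]
  have : (cos a * cos b + sin a * sin b - sin a * sin b) / (cos a * cos b) = 1 := by
    field_simp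
    ring
  rw [this, arccos_one]

end Pool.Agent.Helper214_flat
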