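import Mathlib
import Pool.Agent.Helper214_flat.Sphere

set_option autoImplicit false

open Real Finset

namespace Pool.Agent.Helper214_flat

/-- The joint `i` (one of the joints `0, …, m - 1` with turn angles `τ`) is pinched. -/
def Pinched (m : ℕ) (τ : ℕ → ℝ) (i : ℕ) : Prop :=
  ∃ a b : ℕ, a < i ∧ i < b ∧ b < m ∧
    (π - τ a) + ∑ k ∈ Ioo a i, τ k ≤ τ i ∧
    (π - τ b) + ∑ k ∈ Ioo i b, τ k ≤ τ i ∧
    (π - τ a) + (π - τ b) + ∑ k ∈ Ioo a b, τ k ≤ π

lemma sum_Ioo_eq (τ : ℕ → ℝ) {a b : ℕ} (h : a < b) :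
    ∑ k ∈ Ioo a b, τ k = ∑ k ∈ range b, τ k - ∑ k ∈ range (a + 1), τ k := by
  have h1 : Ioo a b = Ico (a + 1) b := by
    ext x; simp only [mem_Ioo, mem_Ico]; omega
  rw [h1, sum_Ico_eq_sub _ (by omega)]

lemma exists_min_aux (N : ℕ) (f : ℕ → ℝ) :
    ∃ A : ℝ, A ≤ π / 2 ∧ (∀ j < N, A ≤ f j) ∧ (A = π / 2 ∨ ∃ j < N, A = f j) := by
  induction N with
  | zero => exact ⟨π / 2, le_rfl, by simp, Or.inl rfl⟩
  | succ N ih =>
    obtain ⟨A, h1, h2, h3⟩ := ih
    rcases le_total A (f N) with h | h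
    · refine ⟨A, h1, ?_, ?_⟩
      · intro j hj
        rcases Nat.lt_succ_iff_lt_or_eq.1 hj with hj | hj
        · exact h2 j hj
        · rw [hj]; exact h
      · rcases h3 with h3 | ⟨j, hj, h3⟩
        · exact Or.inl h3
        · exact Or.inr ⟨j, by omega, h3⟩
    · refine ⟨f N, by linarith, ?_, Or.inr ⟨N, by omega, rfl⟩⟩
      intro j hj
      rcases Nat.lt_succ_iff_lt_or_eq.1 hj with hj | hj
      · exact h.trans (h2 j hj)
      · rw [hj]

lemma facet_choice {A B τ : ℝ} (hA0 : 0 < A) (hB0 : 0 < B) (hA : A ≤ π / 2) (hB : B ≤ π / 2)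
    (hτ0 : 0 ≤ τ) (hτ : τ < π) (h : π - τ < A + B ∨ τ < A ∨ τ < B) :
    ∃ x y : ℝ, 0 < x ∧ x < A ∧ 0 < y ∧ y < B ∧ |x - y| ≤ τ ∧ x + y ≤ π - τ ∧
      (|x - y| = τ ∨ x + y = π - τ) := by
  rcases h with h | h | h
  · have hs : 0 < A + B := by linarith
    have hθ : 0 < π - τ := by linarith
    set r := (π - τ) / (A + B) with hr
    have hr0 : 0 < r := div_pos hθ hs
    have hr1 : r < 1 := (div_lt_one hs).2 h
    have hrs : r * (A + B) = π - τ := by rw [hr]; field_simp
    refine ⟨r * A, r * B, by positivity, by nlinarith, by positivity, by nlinarith, ?_, ?_, ?_⟩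
    · rw [abs_le]; constructor <;> nlinarith
    · linarith
    · right; linarith
  · set δ := min ((A - τ) / 2) (B / 2) with hδ
    have h1 : δ ≤ (A - τ) / 2 := min_le_left _ _
    have h2 : δ ≤ B / 2 := min_le_right _ _
    have h3 : 0 < δ := lt_min (by linarith) (by linarith)
    have h4 : |τ + δ - δ| = τ := by rw [add_sub_cancel_right, abs_of_nonneg hτ0]
    exact ⟨τ + δ, δ, by linarith, by linarith, h3, by linarith, h4.le, by linarith, Or.inl h4⟩
  · set δ := min ((B - τ) / 2) (A / 2) with hδ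
    have h1 : δ ≤ (B - τ) / 2 := min_le_left _ _
    have h2 : δ ≤ A / 2 := min_le_right _ _
    have h3 : 0 < δ := lt_min (by linarith) (by linarith)
    have h4 : |δ - (τ + δ)| = τ := by
      have : δ - (τ + δ) = - τ := by ring
      rw [this, abs_neg, abs_of_nonneg hτ0]
    exact ⟨δ, τ + δ, h3, by linarith, by linarith, by linarith, h4.le, by linarith, Or.inl h4⟩

lemma exists_facet {m : ℕ} {τ : ℕ → ℝ} (hτ : ∀ k < m, 0 ≤ τ k ∧ τ k < π) {i : ℕ} (hi : i < m)
    (hnp : ¬ Pinched m τ i) :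
    ∃ d : ℕ → ℝ, Feas m τ d ∧ (∀ k ≤ m, 0 < d k) ∧
      (|d i - d (i + 1)| = τ i ∨ d i + d (i + 1) = π - τ i) := by
  set S : ℕ → ℝ := fun k => ∑ j ∈ range k, τ j with hS
  have hS1 : ∀ k, S (k + 1) = S k + τ k := fun k => sum_range_succ _ _
  have hSmono : ∀ k l, k ≤ l → l ≤ m → S k ≤ S l := by
    intro k l hkl
    induction l, hkl using Nat.le_induction with
    | base => intro _; exact le_rfl
    | succ l hl ih =>
      intro hm
      rw [hS1]
      linarith [ih (by omega), (hτ l (by omega)).1]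
  obtain ⟨A, hA, hA1, hA2⟩ := exists_min_aux i (fun j => π - τ j + (S i - S (j + 1)))
  obtain ⟨B, hB, hB1, hB2⟩ := exists_min_aux (m - (i + 1))
    (fun j => π - τ (i + 1 + j) + (S (i + 1 + j) - S (i + 1)))
  have hB1' : ∀ j, i < j → j < m → B ≤ π - τ j + (S j - S (i + 1)) := by
    intro j hj hj'
    have := hB1 (j - (i + 1)) (by omega)
    rwa [show i + 1 + (j - (i + 1)) = j by omega] at this
  have hB2' : B = π / 2 ∨ ∃ j, i < j ∧ j < m ∧ B = π - τ j + (S j - S (i + 1)) := by
    rcases hB2 with h | ⟨j, hj, h⟩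
    · exact Or.inl h
    · exact Or.inr ⟨i + 1 + j, by omega, by omega, h⟩
  have hA0 : 0 < A := by
    rcases hA2 with h | ⟨j, hj, h⟩
    · rw [h]; positivity
    · rw [h]
      linarith [hSmono (j + 1) i (by omega) (by omega), (hτ j (by omega)).2]
  have hB0 : 0 < B := by
    rcases hB2' with h | ⟨j, hj, hj', h⟩
    · rw [h]; positivity
    · rw [h]
      linarith [hSmono (i + 1) j (by omega) (by omega), (hτ j (by omega)).2]
  have hcase : π - τ i < A + B ∨ τ i < A ∨ τ i < B := by
    by_contra hcon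
    push Not at hcon
    obtain ⟨h1, h2, h3⟩ := hcon
    rcases hA2 with h | ⟨a, ha, h⟩
    · linarith
    rcases hB2' with h' | ⟨b, hb, hb', h'⟩
    · linarith
    apply hnp
    refine ⟨a, b, ha, hb, hb', ?_, ?_, ?_⟩
    · rw [sum_Ioo_eq τ ha]
      simp only [hS] at h
      linarith
    · rw [sum_Ioo_eq τ hb]
      simp only [hS] at h'
      linarith
    · rw [sum_Ioo_eq τ (ha.trans hb)]
      have := hS1 i
      simp only [hS] at h h' this
      linarith
  obtain ⟨x, y, hx0, hxA, hy0, hyB, hxy1, hxy2, hxy3⟩ :=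
    facet_choice hA0 hB0 hA hB (hτ i hi).1 (hτ i hi).2 hcase
  -- a small positive number
  have hη : ∃ η : ℝ, 0 < η ∧ η ≤ x ∧ η ≤ y ∧ (∀ j < m, 2 * η ≤ π - τ j) ∧
      (∀ j < i, η + (x - (S i - S (j + 1))) ≤ π - τ j) ∧
      (∀ j < m, i < j → η + (y - (S j - S (i + 1))) ≤ π - τ j) := by
    have key : ∀ (c : ℝ) (f : ℕ → ℝ) (N : ℕ), 0 < c → (∀ j < N, 0 < f j) →
        ∃ η : ℝ, 0 < η ∧ η ≤ c ∧ ∀ j < N, η ≤ f j := by
      intro c f N hc
      induction N with
      | zero => intro _; exact ⟨c, hc, le_rfl, by simp⟩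
      | succ N ih =>
        intro hf
        obtain ⟨η, h1, h2, h3⟩ := ih (fun j hj => hf j (by omega))
        refine ⟨min η (f N), lt_min h1 (hf N (by omega)), (min_le_left _ _).trans h2, ?_⟩
        intro j hj
        rcases Nat.lt_succ_iff_lt_or_eq.1 hj with hj | hj
        · exact (min_le_left _ _).trans (h3 j hj)
        · rw [hj]; exact min_le_right _ _
    obtain ⟨η1, h11, h12, h13⟩ := key (min x y) (fun j => (π - τ j) / 2) m (lt_min hx0 hy0)
      (fun j hj => by have := (hτ j hj).2; show 0 < (π - τ j) / 2; linarith)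
    obtain ⟨η2, h21, h22, h23⟩ := key η1 (fun j => π - τ j - (x - (S i - S (j + 1)))) i h11
      (fun j hj => by
        have := hA1 j hj
        show 0 < π - τ j - (x - (S i - S (j + 1)))
        linarith)
    obtain ⟨η3, h31, h32, h33⟩ := key η2
      (fun j => if i < j then π - τ j - (y - (S j - S (i + 1))) else 1) m h21
      (fun j hj => by
        show 0 < (if i < j then π - τ j - (y - (S j - S (i + 1))) else 1)
        split_ifs with hij
        · have := hB1' j hij hj
          linarith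
        · exact one_pos)
    refine ⟨η3, h31, ?_, ?_, ?_, ?_, ?_⟩
    · exact (h32.trans h22).trans (h12.trans (min_le_left _ _))
    · exact (h32.trans h22).trans (h12.trans (min_le_right _ _))
    · intro j hj
      have := h13 j hj
      linarith [h32.trans h22]
    · intro j hj
      have := h23 j hj
      linarith
    · intro j hj hij
      have := h33 j hj
      simp only [hij, if_true] at this
      linarith
  obtain ⟨η, hη0, hηx, hηy, hη1, hη2, hη3⟩ := hη
  have hx2 : x < π / 2 := by linarith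
  have hy2 : y < π / 2 := by linarith
  set d : ℕ → ℝ := fun j => if j ≤ i then max η (x - (S i - S j)) else
    max η (y - (S j - S (i + 1))) with hd
  have hdl : ∀ j, j ≤ i → d j = max η (x - (S i - S j)) := fun j hj => by simp [hd, hj]
  have hdr : ∀ j, i < j → d j = max η (y - (S j - S (i + 1))) := fun j hj => by
    simp [hd, not_le.2 hj]
  have hdi : d i = x := by
    rw [hdl i le_rfl, sub_self, sub_zero, max_eq_right hηx]
  have hdi' : d (i + 1) = y := by
    rw [hdr (i + 1) (by omega), sub_self, sub_zero, max_eq_right hηy]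
  have hpos : ∀ k, 0 < d k := by
    intro k
    simp only [hd]
    split_ifs
    · exact lt_of_lt_of_le hη0 (le_max_left _ _)
    · exact lt_of_lt_of_le hη0 (le_max_left _ _)
  refine ⟨d, ⟨fun k _ => (hpos k).le, ?_, ?_, ?_⟩, fun k _ => hpos k, ?_⟩
  · intro k hk
    rcases le_or_gt k i with h | h
    · rw [hdl k h]
      refine max_lt (by linarith) ?_
      linarith [hSmono k i h hi.le]
    · rw [hdr k h]
      refine max_lt (by linarith) ?_
      linarith [hSmono (i + 1) k h hk]
  · intro k hk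
    rcases lt_trichotomy k i with h | h | h
    · rw [hdl k h.le, hdl (k + 1) h]
      refine (abs_max_sub_max_le_max _ _ _ _).trans ?_
      rw [sub_self, abs_zero]
      refine max_le (hτ k hk).1 ?_
      rw [abs_le]
      constructor <;> linarith [(hτ k hk).1, hS1 k]
    · subst h
      rw [hdi, hdi']
      exact hxy1
    · rw [hdr k h, hdr (k + 1) (by omega)]
      refine (abs_max_sub_max_le_max _ _ _ _).trans ?_
      rw [sub_self, abs_zero]
      refine max_le (hτ k hk).1 ?_
      rw [abs_le]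
      constructor <;> linarith [(hτ k hk).1, hS1 k]
  · intro k hk
    rcases lt_trichotomy k i with h | h | h
    · rw [hdl k h.le, hdl (k + 1) h]
      have h1 := hη1 k hk
      have h2 := hη2 k h
      have h3 := hSmono (k + 1) i h hi.le
      have h4 := hS1 k
      have h5 := (hτ k hk).1
      rcases max_cases η (x - (S i - S k)) with ⟨e1, e2⟩ | ⟨e1, e2⟩ <;>
        rcases max_cases η (x - (S i - S (k + 1))) with ⟨e3, e4⟩ | ⟨e3, e4⟩ <;>
        rw [e1, e3] <;> linarith
    · subst h
      rw [hdi, hdi']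
      exact hxy2
    · rw [hdr k h, hdr (k + 1) (by omega)]
      have h1 := hη1 k hk
      have h2 := hη3 k hk h
      have h3 := hSmono (i + 1) k h hk.le
      have h4 := hS1 k
      have h5 := (hτ k hk).1
      rcases max_cases η (y - (S k - S (i + 1))) with ⟨e1, e2⟩ | ⟨e1, e2⟩ <;>
        rcases max_cases η (y - (S (k + 1) - S (i + 1))) with ⟨e3, e4⟩ | ⟨e3, e4⟩ <;>
        rw [e1, e3] <;> linarith
  · rw [hdi, hdi']
    exact hxy3

end Pool.Agent.Helper214_flat
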