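import Mathlib
import Pool.Agent.Helper214_flat.Sphere
import Pool.Agent.Helper214_flat.Facet

set_option autoImplicit false

open scoped RealInnerProductSpace
open Real Finset

namespace Pool.Agent.Helper214_flat

/-- Descending unit directions with prescribed consecutive angles. -/
structure GoodDir (m : ℕ) (τ : ℕ → ℝ) (w : ℕ → E3) : Prop where
  norm : ∀ k ≤ m, ‖w k‖ = 1
  neg : ∀ k ≤ m, w k 2 < 0
  inner : ∀ k < m, ⟪w k, w (k + 1)⟫ = cos (τ k)

lemma goodDir_W {m : ℕ} {τ ε d : ℕ → ℝ} (hτ : ∀ k < m, 0 ≤ τ k)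
    (hε : ∀ k < m, ε k = 1 ∨ ε k = -1) (hd : Feas m τ d) (hpos : ∀ k ≤ m, 0 < d k) :
    GoodDir m τ (W τ ε d) where
  norm := fun k _ => norm_dir _ _
  neg := fun k hk => by
    show dir (d k) (lon τ ε d k) 2 < 0
    rw [dir_two]
    have : 0 < sin (d k) := sin_pos_of_pos_of_lt_pi (hpos k hk) (by linarith [hd.lt k hk, pi_pos])
    linarith
  inner := fun k hk => inner_W hτ hε hd hk

lemma W_congr {m : ℕ} {τ ε ε' d : ℕ → ℝ} (h : ∀ k < m, ε k = ε' k) :
    ∀ k ≤ m, W τ ε d k = W τ ε' d k := by
  have key : ∀ k ≤ m, lon τ ε d k = lon τ ε' d k := by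
    intro k
    induction k with
    | zero => intro _; rfl
    | succ k ih =>
      intro hk
      simp only [lon]
      rw [ih (by omega), h k (by omega)]
  intro k hk
  unfold W
  rw [key k hk]

/-- Constant small depths are feasible. -/
lemma exists_small {m : ℕ} {τ : ℕ → ℝ} (hτ : ∀ k < m, 0 ≤ τ k ∧ τ k < π) :
    ∃ η : ℝ, 0 < η ∧ Feas m τ (fun _ => η) := by
  have key : ∀ N ≤ m, ∃ η : ℝ, 0 < η ∧ η < π / 2 ∧ ∀ k < N, 2 * η ≤ π - τ k := by
    intro N
    induction N with
    | zero => intro _; exact ⟨1, one_pos, by linarith [pi_gt_three], by simp⟩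
    | succ N ih =>
      intro hN
      obtain ⟨η, h1, h2, h3⟩ := ih (by omega)
      have h4 := (hτ N (by omega)).2
      refine ⟨min η ((π - τ N) / 2), lt_min h1 (by linarith), lt_of_le_of_lt (min_le_left _ _) h2,
        ?_⟩
      intro k hk
      rcases Nat.lt_succ_iff_lt_or_eq.1 hk with hk | hk
      · linarith [min_le_left η ((π - τ N) / 2), h3 k hk]
      · subst hk
        linarith [min_le_right η ((π - τ k) / 2)]
  obtain ⟨η, h1, h2, h3⟩ := key m le_rfl
  refine ⟨η, h1, fun k _ => h1.le, fun k _ => h2, fun k hk => ?_, fun k hk => ?_⟩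
  · rw [sub_self, abs_zero]; exact (hτ k hk).1
  · linarith [h3 k hk]

lemma feas_zero {m : ℕ} {τ : ℕ → ℝ} (hτ : ∀ k < m, 0 ≤ τ k ∧ τ k < π) :
    Feas m τ (fun _ => 0) where
  nonneg := fun _ _ => le_rfl
  lt := fun _ _ => by positivity
  diff := fun k hk => by rw [sub_self, abs_zero]; exact (hτ k hk).1
  sum := fun k hk => by linarith [(hτ k hk).2]

section

variable {X : Type*} [TopologicalSpace X] {m : ℕ} {τ : ℕ → ℝ}

/-- Moving along a segment of feasible depth vectors. -/
lemma joined_segment (hτ : ∀ k < m, 0 ≤ τ k ∧ τ k < π) (Φ : (ℕ → E3) → X) (F : Set X)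
    (hF : ∀ w, GoodDir m τ w → Φ w ∈ F)
    (hcont : ∀ (s : Set ℝ) (w : ℝ → ℕ → E3), (∀ k ≤ m, ContinuousOn (fun t => w t k) s) →
      ContinuousOn (fun t => Φ (w t)) s)
    {ε : ℕ → ℝ} (hε : ∀ k < m, ε k = 1 ∨ ε k = -1) {d d' : ℕ → ℝ}
    (hd : Feas m τ d) (hd' : Feas m τ d') (hpos' : ∀ k ≤ m, 0 < d' k)
    (h0 : Φ (W τ ε d) ∈ F) : JoinedIn F (Φ (W τ ε d)) (Φ (W τ ε d')) := by
  refine JoinedIn.ofLine (f := fun t => Φ (W τ ε (fun k => (1 - t) * d k + t * d' k)))
    ?_ ?_ ?_ ?_
  · refine hcont _ _ ?_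
    refine continuousOn_W (m := m) (D := fun t k => (1 - t) * d k + t * d' k) ?_ ?_
    · intro k _
      fun_prop
    · intro t ht k hk
      have h1 := (hd.lerp hd' ht.1 ht.2).lt k hk
      have h2 := (hd.lerp hd' ht.1 ht.2).nonneg k hk
      exact (cos_pos_of_mem_Ioo ⟨by linarith [pi_pos], h1⟩).ne'
  · simp
  · simp
  · rintro _ ⟨t, ht, rfl⟩
    rcases ht.1.eq_or_lt with h | h
    · simpa [← h] using h0
    · refine hF _ (goodDir_W (fun k hk => (hτ k hk).1) hε (hd.lerp hd' ht.1 ht.2) ?_)
      intro k hk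
      have h1 := hd.nonneg k hk
      have h2 := hpos' k hk
      have h3 : 0 ≤ 1 - t := by linarith [ht.2]
      have h4 : 0 < t * d' k := mul_pos h h2
      have h5 : 0 ≤ (1 - t) * d k := mul_nonneg h3 h1
      show 0 < (1 - t) * d k + t * d' k
      linarith

theorem joined_of_signs (hτ : ∀ k < m, 0 ≤ τ k ∧ τ k < π) (Φ : (ℕ → E3) → X) (F : Set X)
    (hF : ∀ w, GoodDir m τ w → Φ w ∈ F)
    (hloc : ∀ w w' : ℕ → E3, (∀ k ≤ m, w k = w' k) → Φ w = Φ w')
    (hcont : ∀ (s : Set ℝ) (w : ℝ → ℕ → E3), (∀ k ≤ m, ContinuousOn (fun t => w t k) s) →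
      ContinuousOn (fun t => Φ (w t)) s)
    {ε ε' : ℕ → ℝ} (hε : ∀ k < m, ε k = 1 ∨ ε k = -1) (hε' : ∀ k < m, ε' k = 1 ∨ ε' k = -1)
    (hp : ∀ i < m, Pinched m τ i → ε i = ε' i)
    (h0 : Φ (W τ ε (fun _ => 0)) ∈ F) (h1 : Φ (W τ ε' (fun _ => 0)) ∈ F) :
    JoinedIn F (Φ (W τ ε (fun _ => 0))) (Φ (W τ ε' (fun _ => 0))) := by
  obtain ⟨η, hη, hδ⟩ := exists_small hτ
  have hδpos : ∀ k ≤ m, 0 < (fun _ : ℕ => η) k := fun _ _ => hη
  have hz := feas_zero hτ
  -- flipping one joint
  have flip : ∀ (e : ℕ → ℝ), (∀ k < m, e k = 1 ∨ e k = -1) → ∀ i < m, ¬ Pinched m τ i →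
      JoinedIn F (Φ (W τ e (fun _ => η))) (Φ (W τ (Function.update e i (- e i)) (fun _ => η))) := by
    intro e he i hi hnp
    obtain ⟨d, hd, hdpos, hfac⟩ := exists_facet hτ hi hnp
    have he' : ∀ k < m, Function.update e i (- e i) k = 1 ∨ Function.update e i (- e i) k = -1 := by
      intro k hk
      by_cases hki : k = i
      · subst hki
        rw [Function.update_self]
        rcases he k hk with h | h <;> rw [h] <;> simp
      · rw [Function.update_of_ne hki]; exact he k hk
    have hlam : lam (τ i) (d i) (d (i + 1)) = 0 ∨ lam (τ i) (d i) (d (i + 1)) = π := by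
      have a1 := hd.nonneg i hi.le
      have a2 := hd.lt i hi.le
      have a3 := hd.nonneg (i + 1) hi
      have a4 := hd.lt (i + 1) hi
      rcases hfac with h | h
      · exact Or.inl (lam_of_diff a1 a2 a3 a4 h)
      · exact Or.inr (lam_of_sum a1 a2 a3 a4 h)
    have heq : Φ (W τ (Function.update e i (- e i)) d) = Φ (W τ e d) :=
      hloc _ _ (fun k _ => W_update (he i hi) hlam k)
    have j1 := joined_segment hτ Φ F hF hcont he hδ hd hdpos
      (hF _ (goodDir_W (fun k hk => (hτ k hk).1) he hδ hδpos))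
    have j2 := joined_segment hτ Φ F hF hcont he' hδ hd hdpos
      (hF _ (goodDir_W (fun k hk => (hτ k hk).1) he' hδ hδpos))
    rw [heq] at j2
    exact j1.trans j2.symm
  -- all the joints
  have main : ∀ j ≤ m, JoinedIn F (Φ (W τ ε (fun _ => η)))
      (Φ (W τ (fun k => if k < j then ε' k else ε k) (fun _ => η))) := by
    intro j
    induction j with
    | zero =>
      intro _
      have : (fun k => if k < 0 then ε' k else ε k) = ε := by
        funext k; simp
      rw [this]
      exact JoinedIn.refl (hF _ (goodDir_W (fun k hk => (hτ k hk).1) hε hδ hδpos))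
    | succ j ih =>
      intro hj
      have ih' := ih (by omega)
      set e : ℕ → ℝ := fun k => if k < j then ε' k else ε k with he
      have hej : e j = ε j := by simp [he]
      have hek : ∀ k < m, e k = 1 ∨ e k = -1 := by
        intro k hk
        simp only [he]
        split_ifs
        · exact hε' k hk
        · exact hε k hk
      by_cases hsame : ε j = ε' j
      · have : (fun k => if k < j + 1 then ε' k else ε k) = e := by
          funext k
          simp only [he]
          rcases lt_trichotomy k j with h | h | h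
          · simp [h, Nat.lt_succ_of_lt h]
          · subst h; simp [hsame]
          · have h' : ¬ k < j + 1 := by omega
            have h'' : ¬ k < j := by omega
            simp [h', h'']
        rw [this]
        exact ih'
      · have hnp : ¬ Pinched m τ j := fun h => hsame (hp j (by omega) h)
        have hneg : ε' j = - ε j := by
          rcases hε j (by omega) with h | h <;> rcases hε' j (by omega) with h' | h' <;>
            rw [h, h'] at hsame ⊢ <;> simp at hsame ⊢
        have : (fun k => if k < j + 1 then ε' k else ε k) = Function.update e j (- e j) := by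
          funext k
          rcases lt_trichotomy k j with h | h | h
          · rw [Function.update_of_ne h.ne]
            simp [he, h, Nat.lt_succ_of_lt h]
          · subst h
            rw [Function.update_self, hej]
            simp [hneg]
          · rw [Function.update_of_ne h.ne']
            have h' : ¬ k < j + 1 := by omega
            have h'' : ¬ k < j := by omega
            simp [he, h', h'']
        rw [this]
        exact ih'.trans (flip e hek j (by omega) hnp)
  have j1 := joined_segment hτ Φ F hF hcont hε hz hδ hδpos h0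
  have j2 := joined_segment hτ Φ F hF hcont hε' hz hδ hδpos h1
  have j3 := main m le_rfl
  have heq : Φ (W τ (fun k => if k < m then ε' k else ε k) (fun _ => η)) =
      Φ (W τ ε' (fun _ => η)) :=
    hloc _ _ (W_congr (fun k hk => by simp [hk]))
  rw [heq] at j3
  exact j1.trans (j3.trans j2.symm)

end

end Pool.Agent.Helper214_flat
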