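import Mathlib
import Pool.Agent.Helper214_flat.Sphere

set_option autoImplicit false

open scoped RealInnerProductSpace
open Real Finset

namespace Pool.Agent.Helper214_flat

lemma reflection_formula (v x : E3) :
    (ℝ ∙ v)ᗮ.reflection x = x - (2 * (⟪v, x⟫ / ‖v‖ ^ 2)) • v := by
  rw [Submodule.reflection_orthogonal_apply, Submodule.reflection_singleton_apply]
  rw [neg_sub, mul_smul]
  congr 1
  rw [two_smul, two_smul]
  rfl

lemma finrank_E3 : Module.finrank ℝ E3 = 3 := by simp

section

variable {ι : Type*}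

lemma joined_translate (F : Set (ι → E3))
    (hinv : ∀ p ∈ F, ∀ (g : E3 ≃ₗᵢ[ℝ] E3) (c : E3), (fun i => g (p i) + c) ∈ F)
    {p : ι → E3} (hp : p ∈ F) (c : E3) : JoinedIn F p (fun i => p i + c) := by
  refine JoinedIn.ofLine (f := fun t : ℝ => fun i => p i + t • c) ?_ ?_ ?_ ?_
  · refine Continuous.continuousOn ?_
    fun_prop
  · simp
  · simp
  · rintro _ ⟨t, -, rfl⟩
    have := hinv p hp (LinearIsometryEquiv.refl ℝ E3) (t • c)
    simpa using this

lemma joined_reflect (F : Set (ι → E3))
    (hinv : ∀ p ∈ F, ∀ (g : E3 ≃ₗᵢ[ℝ] E3) (c : E3), (fun i => g (p i) + c) ∈ F)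
    {p : ι → E3} (hp : p ∈ F) {ν : E3} (hν : ν ≠ 0) (a : ℝ) (hpl : ∀ i, ⟪ν, p i⟫ = a) (v : E3) :
    JoinedIn F p (fun i => (ℝ ∙ v)ᗮ.reflection (p i)) := by
  have hmem : ∀ v : E3, (fun i => (ℝ ∙ v)ᗮ.reflection (p i)) ∈ F := by
    intro v
    have := hinv p hp (ℝ ∙ v)ᗮ.reflection 0
    simpa using this
  by_cases hv : v = 0
  · subst hv
    have : (fun i => (ℝ ∙ (0 : E3))ᗮ.reflection (p i)) = p := by
      funext i
      rw [reflection_formula, smul_zero, sub_zero]
    rw [this]
    exact JoinedIn.refl hp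
  · have h1 : JoinedIn F p (fun i => (ℝ ∙ ν)ᗮ.reflection (p i)) := by
      have h := joined_translate F hinv hp (- ((2 * (a / ‖ν‖ ^ 2)) • ν))
      have e : (fun i => (ℝ ∙ ν)ᗮ.reflection (p i)) =
          fun i => p i + - ((2 * (a / ‖ν‖ ^ 2)) • ν) := by
        funext i
        rw [reflection_formula, hpl i, sub_eq_add_neg]
      rw [e]
      exact h
    have hrank : 1 < Module.rank ℝ E3 := by
      rw [← Module.finrank_eq_rank, finrank_E3]
      norm_num
    have hcv : ContinuousOn (fun v : E3 => (fun i => (ℝ ∙ v)ᗮ.reflection (p i)))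
        ({0}ᶜ : Set E3) := by
      simp only [reflection_formula]
      refine continuousOn_pi.2 fun i => ?_
      refine continuousOn_const.sub ?_
      have hq : ContinuousOn (fun v : E3 => 2 * (⟪v, p i⟫ / ‖v‖ ^ 2)) ({0}ᶜ : Set E3) := by
        refine continuousOn_const.mul ?_
        refine ContinuousOn.div ?_ ?_ ?_
        · fun_prop
        · fun_prop
        · intro x hx
          have : x ≠ 0 := hx
          positivity
      have hid : ContinuousOn (fun v : E3 => v) ({0}ᶜ : Set E3) := continuous_id.continuousOn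
      exact hq.smul hid
    have h2 : JoinedIn ({0}ᶜ : Set E3) ν v :=
      (isPathConnected_compl_singleton_of_one_lt_rank hrank (0 : E3)).joinedIn ν hν v hv
    have h3 := h2.map_continuousOn hcv
    refine h1.trans (h3.mono ?_)
    rintro _ ⟨u, -, rfl⟩
    exact hmem u

theorem joined_rigid (F : Set (ι → E3))
    (hinv : ∀ p ∈ F, ∀ (g : E3 ≃ₗᵢ[ℝ] E3) (c : E3), (fun i => g (p i) + c) ∈ F)
    {p : ι → E3} (hp : p ∈ F) {ν : E3} (hν : ν ≠ 0) (a : ℝ) (hpl : ∀ i, ⟪ν, p i⟫ = a)
    (g : E3 ≃ₗᵢ[ℝ] E3) (c : E3) : JoinedIn F p (fun i => g (p i) + c) := by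
  have main : ∀ l : List E3, JoinedIn F p
      (fun i => ((l.map fun v => (ℝ ∙ v)ᗮ.reflection).prod : E3 ≃ₗᵢ[ℝ] E3) (p i)) := by
    intro l
    induction l with
    | nil =>
      simp only [List.map_nil, List.prod_nil]
      exact JoinedIn.refl hp
    | cons v l ih =>
      simp only [List.map_cons, List.prod_cons]
      set h := ((l.map fun v => (ℝ ∙ v)ᗮ.reflection).prod : E3 ≃ₗᵢ[ℝ] E3) with hh
      have hmem : (fun i => h (p i)) ∈ F := by
        have := hinv p hp h 0
        simpa using this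
      have h2 := joined_reflect F hinv hmem (ν := h ν) (by
        intro h0
        apply hν
        have : ‖h ν‖ = 0 := by rw [h0, norm_zero]
        rw [h.norm_map] at this
        exact norm_eq_zero.1 this) a (by
        intro i
        rw [h.inner_map_map]
        exact hpl i) v
      exact ih.trans h2
  obtain ⟨l, -, hl⟩ := g.reflections_generate_dim
  have h1 := main l
  rw [← hl] at h1
  have hmem : (fun i => g (p i)) ∈ F := by
    have := hinv p hp g 0
    simpa using this
  exact h1.trans (joined_translate F hinv hmem c)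

end

end Pool.Agent.Helper214_flat
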