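import Mathlib
import Pool.Agent.Helper214_flat.Sphere
import Pool.Agent.Helper214_flat.Facet
import Pool.Agent.Helper214_flat.Connect
import Pool.Agent.Helper214_flat.Rigid

set_option autoImplicit false

open scoped RealInnerProductSpace
open Real Finset

namespace Pool.Agent.Helper214_flat

lemma lam_zero_zero {τ : ℝ} (h0 : 0 ≤ τ) (h1 : τ ≤ π) : lam τ 0 0 = τ := by
  unfold lam
  simp [arccos_cos h0 h1]

/-- The inner product of the vector products `(w i) × (w (i+1))` and `(w j) × (w (j+1))`. -/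
noncomputable def turnDir (w : ℕ → E3) (i j : ℕ) : ℝ :=
  ⟪w i, w j⟫ * ⟪w (i + 1), w (j + 1)⟫ - ⟪w i, w (j + 1)⟫ * ⟪w (i + 1), w j⟫

lemma turnDir_comm (w : ℕ → E3) (i j : ℕ) : turnDir w i j = turnDir w j i := by
  unfold turnDir
  rw [real_inner_comm (w i) (w j), real_inner_comm (w (i + 1)) (w (j + 1)),
    real_inner_comm (w i) (w (j + 1)), real_inner_comm (w (i + 1)) (w j)]
  ring

lemma turnDir_W {m : ℕ} {τ ε : ℕ → ℝ} (hτ : ∀ k < m, 0 ≤ τ k ∧ τ k < π)
    (hε : ∀ k, ε k = 1 ∨ ε k = -1) {i j : ℕ} (hi : i < m) (hj : j < m) :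
    turnDir (W τ ε (fun _ => 0)) i j = ε i * ε j * (sin (τ i) * sin (τ j)) := by
  have h : ∀ k < m, lon τ ε (fun _ => 0) (k + 1) - lon τ ε (fun _ => 0) k = ε k * τ k := by
    intro k hk
    simp only [lon]
    rw [lam_zero_zero (hτ k hk).1 (hτ k hk).2.le]
    ring
  have hs : ∀ k < m, sin (ε k * τ k) = ε k * sin (τ k) := by
    intro k _
    rcases hε k with h | h <;> rw [h] <;> simp
  have e : turnDir (W τ ε (fun _ => 0)) i j =
      sin (lon τ ε (fun _ => 0) (i + 1) - lon τ ε (fun _ => 0) i) *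
      sin (lon τ ε (fun _ => 0) (j + 1) - lon τ ε (fun _ => 0) j) := by
    unfold turnDir W
    simp only [inner_dir, cos_zero, sin_zero, one_mul, mul_zero, add_zero]
    simp only [cos_sub, sin_sub]
    ring
  rw [e, h i hi, h j hj, hs i hi, hs j hj]
  ring

/-- A planar sequence of unit vectors is, after a linear isometry, of the form `W`. -/
theorem exists_canon {m : ℕ} {τ : ℕ → ℝ} (hτ : ∀ k < m, 0 ≤ τ k ∧ τ k < π) {w : ℕ → E3}
    (hn : ∀ k ≤ m, ‖w k‖ = 1) (hi : ∀ k < m, ⟪w k, w (k + 1)⟫ = cos (τ k)) {ν : E3}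
    (hν : ‖ν‖ = 1) (hνw : ∀ k ≤ m, ⟪ν, w k⟫ = 0) :
    ∃ (g : E3 ≃ₗᵢ[ℝ] E3) (ε : ℕ → ℝ), (∀ k, ε k = 1 ∨ ε k = -1) ∧
      ∀ k ≤ m, g (w k) = W τ ε (fun _ => 0) k := by
  obtain ⟨b, hb⟩ := Orthonormal.exists_orthonormalBasis_extension_of_card_eq (𝕜 := ℝ) (E := E3)
    (ι := Fin 3) (by simp) (v := ![w 0, 0, ν]) (s := {0, 2}) (by
      rw [orthonormal_iff_ite]
      rintro ⟨i, hi⟩ ⟨j, hj⟩
      have h0 := hn 0 (by omega)
      have h1 := hνw 0 (by omega)
      have h2 : ⟪w 0, ν⟫ = 0 := by rw [real_inner_comm]; exact h1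
      simp only [Set.mem_insert_iff, Set.mem_singleton_iff] at hi hj
      rcases hi with rfl | rfl <;> rcases hj with rfl | rfl <;>
        simp [Set.domRestrict, h1, h2, h0, hν])
  have hb0 : b 0 = w 0 := hb 0 (by simp)
  have hb2 : b 2 = ν := hb 2 (by simp)
  have hg2 : ∀ k ≤ m, (b.repr (w k)) 2 = 0 := by
    intro k hk
    rw [b.repr_apply_apply, hb2]
    exact hνw k hk
  have hg0 : b.repr (w 0) = EuclideanSpace.single (0 : Fin 3) (1 : ℝ) := by
    rw [← hb0, b.repr_self]
  have main : ∀ K ≤ m, ∃ ε : ℕ → ℝ, (∀ k, ε k = 1 ∨ ε k = -1) ∧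
      ∀ k ≤ K, b.repr (w k) = W τ ε (fun _ => 0) k := by
    intro K
    induction K with
    | zero =>
      intro _
      refine ⟨fun _ => 1, fun _ => Or.inl rfl, ?_⟩
      intro k hk
      have : k = 0 := by omega
      subst this
      rw [hg0]
      ext i
      fin_cases i <;> simp [W, dir, lon]
    | succ K ih =>
      intro hK
      obtain ⟨ε, hε, hW⟩ := ih (by omega)
      set l := lon τ ε (fun _ => 0) K with hl
      set t := τ K with ht
      have e1 : ∀ x y : E3, ⟪x, y⟫ = x 0 * y 0 + x 1 * y 1 + x 2 * y 2 := by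
        intro x y
        rw [PiLp.inner_apply, Fin.sum_univ_three]
        simp [mul_comm]
      set A := (b.repr (w (K + 1))) 0 with hA
      set B := (b.repr (w (K + 1))) 1 with hB
      have hz : (b.repr (w (K + 1))) 2 = 0 := hg2 _ hK
      have hAB : A ^ 2 + B ^ 2 = 1 := by
        have h1 : ⟪b.repr (w (K + 1)), b.repr (w (K + 1))⟫ = 1 := by
          rw [real_inner_self_eq_norm_sq, b.repr.norm_map, hn _ hK]; norm_num
        rw [e1, hz] at h1
        linarith [h1]
      have hc : cos l * A + sin l * B = cos t := by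
        have h1 : ⟪b.repr (w K), b.repr (w (K + 1))⟫ = cos t := by
          rw [b.repr.inner_map_map]; exact hi K (by omega)
        rw [e1, hz, hW K le_rfl] at h1
        simp only [W, dir_zero, dir_one, cos_zero, one_mul] at h1
        linarith [h1]
      have hs : (cos l * B - sin l * A) ^ 2 = sin t ^ 2 := by
        have h1 : (cos l * A + sin l * B) ^ 2 + (cos l * B - sin l * A) ^ 2 =
            (cos l ^ 2 + sin l ^ 2) * (A ^ 2 + B ^ 2) := by ring
        rw [hAB, cos_sq_add_sin_sq, hc] at h1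
        linarith [cos_sq_add_sin_sq t]
      have hrec : ∀ s : ℝ, (s = 1 ∨ s = -1) → cos l * B - sin l * A = s * sin t →
          ∃ ε : ℕ → ℝ, (∀ k, ε k = 1 ∨ ε k = -1) ∧
            ∀ k ≤ K + 1, b.repr (w k) = W τ ε (fun _ => 0) k := by
        intro s hs1 hs2
        refine ⟨Function.update ε K s, ?_, ?_⟩
        · intro k
          by_cases hk : k = K
          · subst hk; rw [Function.update_self]; exact hs1
          · rw [Function.update_of_ne hk]; exact hε k
        · intro k hk
          have hcongr : ∀ k ≤ K, W τ (Function.update ε K s) (fun _ => 0) k =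
              W τ ε (fun _ => 0) k :=
            W_congr (fun j hj => by rw [Function.update_of_ne hj.ne])
          rcases Nat.lt_or_ge k (K + 1) with hk' | hk'
          · rw [hcongr k (by omega)]
            exact hW k (by omega)
          · have : k = K + 1 := by omega
            subst this
            have hlK : lon τ (Function.update ε K s) (fun _ => 0) K = l := by
              have : ∀ k ≤ K, lon τ (Function.update ε K s) (fun _ => 0) k =
                  lon τ ε (fun _ => 0) k := by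
                intro k
                induction k with
                | zero => intro _; rfl
                | succ k ihk =>
                  intro hk2
                  simp only [lon]
                  rw [ihk (by omega), Function.update_of_ne (by omega)]
              exact this K le_rfl
            have hl1 : lon τ (Function.update ε K s) (fun _ => 0) (K + 1) = l + s * t := by
              simp only [lon]
              rw [hlK, Function.update_self, lam_zero_zero (hτ K (by omega)).1
                (hτ K (by omega)).2.le]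
            have hcs : cos (s * t) = cos t := by
              rcases hs1 with h | h <;> rw [h] <;> simp
            have hss : sin (s * t) = s * sin t := by
              rcases hs1 with h | h <;> rw [h] <;> simp
            have hl2 := cos_sq_add_sin_sq l
            ext i
            fin_cases i
            · show A = dir 0 (lon τ (Function.update ε K s) (fun _ => 0) (K + 1)) 0
              rw [dir_zero, cos_zero, one_mul, hl1, cos_add, hcs, hss, ← hc, ← hs2]
              linear_combination (-A) * hl2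
            · show B = dir 0 (lon τ (Function.update ε K s) (fun _ => 0) (K + 1)) 1
              rw [dir_one, cos_zero, one_mul, hl1, sin_add, hcs, hss, ← hc, ← hs2]
              linear_combination (-B) * hl2
            · show (b.repr (w (K + 1))) 2 =
                dir 0 (lon τ (Function.update ε K s) (fun _ => 0) (K + 1)) 2
              rw [dir_two, sin_zero, neg_zero, hz]
      rcases sq_eq_sq_iff_eq_or_eq_neg.1 hs with h | h
      · exact hrec 1 (Or.inl rfl) (by rw [h, one_mul])
      · exact hrec (-1) (Or.inr rfl) (by rw [h]; ring)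
  obtain ⟨ε, h1, h2⟩ := main m le_rfl
  exact ⟨b.repr, ε, h1, h2⟩

/-- All the senses may be switched at once. -/
lemma exists_mirror {m : ℕ} {τ ε : ℕ → ℝ} {w : ℕ → E3} {g : E3 ≃ₗᵢ[ℝ] E3}
    (h : ∀ k ≤ m, g (w k) = W τ ε (fun _ => 0) k) :
    ∃ g' : E3 ≃ₗᵢ[ℝ] E3, ∀ k ≤ m, g' (w k) = W τ (fun k => - ε k) (fun _ => 0) k := by
  have hl : ∀ k, lon τ (fun k => - ε k) (fun _ => 0) k = - lon τ ε (fun _ => 0) k := by
    intro k
    induction k with
    | zero => simp [lon]
    | succ k ih => simp only [lon, ih]; ring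
  refine ⟨g.trans (ℝ ∙ (EuclideanSpace.single (1 : Fin 3) (1 : ℝ) : E3))ᗮ.reflection, ?_⟩
  intro k hk
  rw [LinearIsometryEquiv.trans_apply, h k hk, reflection_formula]
  unfold W
  rw [hl k]
  ext i
  fin_cases i
  · simp [dir]
  · simp [dir, EuclideanSpace.inner_single_left]
    ring
  · simp [dir]

/-- Vertices as fixed linear combinations of directions. -/
noncomputable def lin {ι : Type*} (m : ℕ) (c : ι → ℕ → ℝ) (w : ℕ → E3) : ι → E3 :=
  fun i => ∑ k ∈ range (m + 1), c i k • w k

section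

variable {ι : Type*} {m : ℕ} {τ : ℕ → ℝ}

theorem core (hτ : ∀ k < m, 0 ≤ τ k ∧ τ k < π) (c : ι → ℕ → ℝ) (F : Set (ι → E3))
    (hinv : ∀ p ∈ F, ∀ (g : E3 ≃ₗᵢ[ℝ] E3) (c : E3), (fun i => g (p i) + c) ∈ F)
    (hF : ∀ w, GoodDir m τ w → lin m c w ∈ F)
    {P Q : ι → E3} (hP : P ∈ F) (hQ : Q ∈ F) {u v : ℕ → E3} {a b : E3}
    (hPu : ∀ i, P i = lin m c u i + a) (hQv : ∀ i, Q i = lin m c v i + b)
    (hu : ∀ k ≤ m, ‖u k‖ = 1) (hv : ∀ k ≤ m, ‖v k‖ = 1)
    (hui : ∀ k < m, ⟪u k, u (k + 1)⟫ = cos (τ k)) (hvi : ∀ k < m, ⟪v k, v (k + 1)⟫ = cos (τ k))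
    {ν μ : E3} (hν : ‖ν‖ = 1) (hμ : ‖μ‖ = 1) (hνu : ∀ k ≤ m, ⟪ν, u k⟫ = 0)
    (hμv : ∀ k ≤ m, ⟪μ, v k⟫ = 0)
    (hsign : ∀ i j, i < j → j < m → Pinched m τ i → Pinched m τ j →
      turnDir u i j = turnDir v i j) : JoinedIn F P Q := by
  obtain ⟨g, ε, hε, hg⟩ := exists_canon hτ hu hui hν hνu
  obtain ⟨h, ε', hε', hh⟩ := exists_canon hτ hv hvi hμ hμv
  -- rigid motions to the canonical form
  have rigid : ∀ (R : ι → E3), R ∈ F → ∀ (w : ℕ → E3) (a : E3), (∀ i, R i = lin m c w i + a) →
      ∀ (ν : E3), ‖ν‖ = 1 → (∀ k ≤ m, ⟪ν, w k⟫ = 0) → ∀ (g : E3 ≃ₗᵢ[ℝ] E3) (e : ℕ → ℝ),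
      (∀ k ≤ m, g (w k) = W τ e (fun _ => 0) k) →
      JoinedIn F R (lin m c (W τ e (fun _ => 0))) := by
    intro R hR w a hRw ν hν hνw g e hg
    have hpl : ∀ i, ⟪ν, R i⟫ = ⟪ν, a⟫ := by
      intro i
      rw [hRw i, inner_add_right]
      unfold lin
      rw [inner_sum]
      have : ∑ k ∈ range (m + 1), ⟪ν, c i k • w k⟫ = 0 := by
        refine sum_eq_zero fun k hk => ?_
        rw [inner_smul_right, hνw k (by simpa [Nat.lt_succ_iff] using hk), mul_zero]
      rw [this, zero_add]
    have hν0 : ν ≠ 0 := by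
      intro h0; rw [h0, norm_zero] at hν; norm_num at hν
    have hj := joined_rigid F hinv hR hν0 _ hpl g (- g a)
    have heq : (fun i => g (R i) + - g a) = lin m c (W τ e (fun _ => 0)) := by
      funext i
      rw [hRw i, map_add]
      unfold lin
      rw [map_sum, add_neg_cancel_right]
      refine sum_congr rfl fun k hk => ?_
      rw [map_smul, hg k (by simpa [Nat.lt_succ_iff] using hk)]
    rw [heq] at hj
    exact hj
  -- the continuity and locality of `lin`
  have hloc : ∀ w w' : ℕ → E3, (∀ k ≤ m, w k = w' k) → lin m c w = lin m c w' := by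
    intro w w' hw
    funext i
    unfold lin
    exact sum_congr rfl fun k hk => by rw [hw k (by simpa [Nat.lt_succ_iff] using hk)]
  have hcont : ∀ (s : Set ℝ) (w : ℝ → ℕ → E3), (∀ k ≤ m, ContinuousOn (fun t => w t k) s) →
      ContinuousOn (fun t => lin m c (w t)) s := by
    intro s w hw
    refine continuousOn_pi.2 fun i => ?_
    unfold lin
    refine continuousOn_finsetSum _ fun k hk => ?_
    exact (hw k (by simpa [Nat.lt_succ_iff] using hk)).const_smul (c i k)
  -- turn products
  have hT : ∀ (w : ℕ → E3) (g : E3 ≃ₗᵢ[ℝ] E3) (e : ℕ → ℝ), (∀ k, e k = 1 ∨ e k = -1) →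
      (∀ k ≤ m, g (w k) = W τ e (fun _ => 0) k) → ∀ i < m, ∀ j < m,
      turnDir w i j = e i * e j * (sin (τ i) * sin (τ j)) := by
    intro w g e he hg i hi j hj
    rw [← turnDir_W hτ he hi hj]
    unfold turnDir
    rw [← hg i hi.le, ← hg j hj.le, ← hg (i + 1) hi, ← hg (j + 1) hj]
    simp only [g.inner_map_map]
  have hsin : ∀ i < m, Pinched m τ i → 0 < sin (τ i) := by
    intro i hi hpi
    refine sin_pos_of_pos_of_lt_pi ?_ (hτ i hi).2
    obtain ⟨a, b, ha, hb, hbm, h1, -, -⟩ := hpi
    have h2 := (hτ a (by omega)).2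
    have h3 : 0 ≤ ∑ k ∈ Ioo a i, τ k := by
      refine sum_nonneg fun k hk => ?_
      have := (mem_Ioo.1 hk).2
      exact (hτ k (by omega)).1
    linarith
  have hprod : ∀ i < m, ∀ j < m, Pinched m τ i → Pinched m τ j → ε i * ε j = ε' i * ε' j := by
    have aux : ∀ i j, i < j → j < m → Pinched m τ i → Pinched m τ j →
        ε i * ε j = ε' i * ε' j := by
      intro i j hij hj hpi hpj
      have h1 := hsign i j hij hj hpi hpj
      rw [hT u g ε hε hg i (by omega) j hj, hT v h ε' hε' hh i (by omega) j hj] at h1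
      have h2 := hsin i (by omega) hpi
      have h3 := hsin j hj hpj
      exact mul_right_cancel₀ (mul_pos h2 h3).ne' h1
    intro i hi j hj hpi hpj
    rcases lt_trichotomy i j with hij | hij | hij
    · exact aux i j hij hj hpi hpj
    · subst hij
      rcases hε i with e1 | e1 <;> rcases hε' i with e2 | e2 <;> rw [e1, e2] <;> norm_num
    · rw [mul_comm, mul_comm (ε' i)]
      exact aux j i hij hi hpj hpi
  have jP := rigid P hP u a hPu ν hν hνu g ε hg
  have fin : ∀ (e : ℕ → ℝ), (∀ k, e k = 1 ∨ e k = -1) → (∀ i < m, Pinched m τ i → ε i = e i) →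
      JoinedIn F Q (lin m c (W τ e (fun _ => 0))) → JoinedIn F P Q := by
    intro e he hpe jQ
    have j := joined_of_signs hτ (lin m c) F hF hloc hcont (fun k _ => hε k) (fun k _ => he k) hpe
      jP.target_mem jQ.target_mem
    exact jP.trans (j.trans jQ.symm)
  by_cases hall : ∀ i < m, Pinched m τ i → ε i = ε' i
  · exact fin ε' hε' hall (rigid Q hQ v b hQv μ hμ hμv h ε' hh)
  · push Not at hall
    obtain ⟨i, hi, hpi, hne⟩ := hall
    obtain ⟨h', hh'⟩ := exists_mirror hh
    refine fin (fun k => - ε' k) ?_ ?_ (rigid Q hQ v b hQv μ hμ hμv h' _ hh')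
    · intro k
      rcases hε' k with h | h <;> rw [h] <;> simp
    · intro j hj hpj
      have h1 := hprod i hi j hj hpi hpj
      show ε j = - ε' j
      rcases hε i with e1 | e1 <;> rcases hε' i with e2 | e2 <;> rw [e1, e2] at hne h1 <;>
        first
          | exact absurd rfl hne
          | linarith

end

end Pool.Agent.Helper214_flat
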