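import Mathlib
import Pool.Agent.Helper214_flat.Sphere

set_option autoImplicit false

open scoped RealInnerProductSpace
open Real Finset EuclideanGeometry

namespace Pool.Agent.Helper214_flat

/-- The chain with vertices `p 0, …, p n` is simple: consecutive vertices are distinct,
non-adjacent links are disjoint and adjacent links meet only in their common vertex. -/
def IsSimple {n : ℕ} (p : Fin (n + 1) → E3) : Prop :=
  (∀ i : Fin n, p i.castSucc ≠ p i.succ) ∧
  (∀ i j : Fin n, i.val + 1 < j.val →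
    Disjoint (segment ℝ (p i.castSucc) (p i.succ)) (segment ℝ (p j.castSucc) (p j.succ))) ∧
  (∀ i j : Fin n, j.val = i.val + 1 →
    segment ℝ (p i.castSucc) (p i.succ) ∩ segment ℝ (p j.castSucc) (p j.succ) ⊆ {p i.succ})

/-- The two configurations have the same link lengths and the same joint angles. -/
def SameChain {n : ℕ} (p q : Fin (n + 1) → E3) : Prop :=
  (∀ i : Fin n, dist (p i.castSucc) (p i.succ) = dist (q i.castSucc) (q i.succ)) ∧
  (∀ i j : Fin n, j.val = i.val + 1 →
    EuclideanGeometry.angle (p i.castSucc) (p i.succ) (p j.succ) =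
      EuclideanGeometry.angle (q i.castSucc) (q i.succ) (q j.succ))

lemma SameChain.symm {n : ℕ} {p q : Fin (n + 1) → E3} (h : SameChain p q) : SameChain q p :=
  ⟨fun i => (h.1 i).symm, fun i j hij => (h.2 i j hij).symm⟩

lemma SameChain.trans {n : ℕ} {p q r : Fin (n + 1) → E3} (h : SameChain p q)
    (h' : SameChain q r) : SameChain p r :=
  ⟨fun i => (h.1 i).trans (h'.1 i), fun i j hij => (h.2 i j hij).trans (h'.2 i j hij)⟩

lemma SameChain.refl {n : ℕ} (p : Fin (n + 1) → E3) : SameChain p p :=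
  ⟨fun _ => rfl, fun _ _ _ => rfl⟩

/-- The vertex `k` of a chain, for `k : ℕ` (the last one if `k` is too large). -/
def pt {n : ℕ} (P : Fin (n + 1) → E3) (k : ℕ) : E3 := P ⟨min k n, by omega⟩

lemma pt_castSucc {n : ℕ} (P : Fin (n + 1) → E3) (i : Fin n) : P i.castSucc = pt P i.val := by
  unfold pt
  congr 1
  ext
  have := i.isLt
  simp only [Fin.val_castSucc]
  omega

lemma pt_succ {n : ℕ} (P : Fin (n + 1) → E3) (i : Fin n) : P i.succ = pt P (i.val + 1) := by
  unfold pt
  congr 1
  ext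
  have := i.isLt
  simp only [Fin.val_succ]
  omega

lemma pt_val {n : ℕ} (P : Fin (n + 1) → E3) (i : Fin (n + 1)) : P i = pt P i.val := by
  unfold pt
  congr 1
  ext
  have := i.isLt
  simp only
  omega

/-- The two facts about simplicity in terms of vertex numbers. -/
lemma isSimple_iff {n : ℕ} (p : Fin (n + 1) → E3) :
    IsSimple p ↔ (∀ k < n, pt p k ≠ pt p (k + 1)) ∧
      (∀ j k, j + 1 < k → k < n →
        Disjoint (segment ℝ (pt p j) (pt p (j + 1))) (segment ℝ (pt p k) (pt p (k + 1)))) ∧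
      (∀ k, k + 1 < n → segment ℝ (pt p k) (pt p (k + 1)) ∩
        segment ℝ (pt p (k + 1)) (pt p (k + 2)) ⊆ {pt p (k + 1)}) := by
  constructor
  · rintro ⟨h1, h2, h3⟩
    refine ⟨?_, ?_, ?_⟩
    · intro k hk
      have := h1 ⟨k, hk⟩
      simpa only [pt_castSucc p, pt_succ p] using this
    · intro j k hjk hk
      have := h2 ⟨j, by omega⟩ ⟨k, hk⟩ hjk
      simpa only [pt_castSucc p, pt_succ p] using this
    · intro k hk
      have := h3 ⟨k, by omega⟩ ⟨k + 1, hk⟩ rfl
      simpa only [pt_castSucc p, pt_succ p] using this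
  · rintro ⟨h1, h2, h3⟩
    refine ⟨?_, ?_, ?_⟩
    · intro i
      simp only [pt_castSucc p, pt_succ p]
      exact h1 i.val i.isLt
    · intro i j hij
      simp only [pt_castSucc p, pt_succ p]
      exact h2 i.val j.val hij j.isLt
    · intro i j hij
      simp only [pt_castSucc p, pt_succ p, hij]
      exact h3 i.val (by have := j.isLt; omega)

lemma sameChain_iff {n : ℕ} (p q : Fin (n + 1) → E3) :
    SameChain p q ↔ (∀ k < n, dist (pt p k) (pt p (k + 1)) = dist (pt q k) (pt q (k + 1))) ∧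
      (∀ k, k + 1 < n → ∠ (pt p k) (pt p (k + 1)) (pt p (k + 2)) =
        ∠ (pt q k) (pt q (k + 1)) (pt q (k + 2))) := by
  constructor
  · rintro ⟨h1, h2⟩
    refine ⟨?_, ?_⟩
    · intro k hk
      have := h1 ⟨k, hk⟩
      simpa only [pt_castSucc p, pt_succ p, pt_castSucc q, pt_succ q] using this
    · intro k hk
      have := h2 ⟨k, by omega⟩ ⟨k + 1, hk⟩ rfl
      simpa only [pt_castSucc p, pt_succ p, pt_castSucc q, pt_succ q] using this
  · rintro ⟨h1, h2⟩
    refine ⟨?_, ?_⟩
    · intro i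
      simp only [pt_castSucc p, pt_succ p, pt_castSucc q, pt_succ q]
      exact h1 i.val i.isLt
    · intro i j hij
      simp only [pt_castSucc p, pt_succ p, pt_castSucc q, pt_succ q, hij]
      exact h2 i.val (by have := j.isLt; omega)

lemma inter_subset_of_angle {a b c : E3} (h : ∠ a b c ≠ 0) :
    segment ℝ a b ∩ segment ℝ b c ⊆ {b} := by
  rintro z ⟨hz1, hz2⟩
  rw [Set.mem_singleton_iff]
  by_contra hne
  apply h
  rw [segment_symm] at hz1
  obtain ⟨s, hs, rfl⟩ := (segment_eq_image' ℝ b a) ▸ hz1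
  obtain ⟨t, ht, hst⟩ := (segment_eq_image' ℝ b c) ▸ hz2
  simp only [add_right_inj] at hst
  have hs0 : s ≠ 0 := by
    rintro rfl; apply hne; simp
  have hsm : s • (a - b) ≠ 0 := by
    intro h0; apply hne; simp only; rw [h0, add_zero]
  have hab : a - b ≠ 0 := fun h0 => hsm (by rw [h0, smul_zero])
  have ht0 : t ≠ 0 := by
    rintro rfl; rw [zero_smul] at hst; exact hsm hst.symm
  have hspos : 0 < s := lt_of_le_of_ne hs.1 (Ne.symm hs0)
  have htpos : 0 < t := lt_of_le_of_ne ht.1 (Ne.symm ht0)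
  unfold EuclideanGeometry.angle
  rw [vsub_eq_sub, vsub_eq_sub, InnerProductGeometry.angle_eq_zero_iff]
  refine ⟨hab, s / t, by positivity, ?_⟩
  have : t⁻¹ • (t • (c - b)) = t⁻¹ • (s • (a - b)) := by rw [hst]
  rw [smul_smul, smul_smul, inv_mul_cancel₀ ht0, one_smul] at this
  rw [this, div_eq_inv_mul]

lemma angle_ne_zero_of_inter {a b c : E3} (hab : a ≠ b) (hbc : b ≠ c)
    (h : segment ℝ a b ∩ segment ℝ b c ⊆ {b}) : ∠ a b c ≠ 0 := by
  intro h0
  unfold EuclideanGeometry.angle at h0
  rw [vsub_eq_sub, vsub_eq_sub, InnerProductGeometry.angle_eq_zero_iff] at h0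
  obtain ⟨-, r, hr, hcb⟩ := h0
  rcases le_total r 1 with h1 | h1
  · have hc : c ∈ segment ℝ a b := by
      rw [segment_symm, segment_eq_image']
      refine ⟨r, ⟨hr.le, h1⟩, ?_⟩
      simp only
      rw [← hcb]; abel
    have : c ∈ ({b} : Set E3) := h ⟨hc, right_mem_segment _ _ _⟩
    exact hbc (Set.mem_singleton_iff.1 this).symm
  · have ha : a ∈ segment ℝ b c := by
      rw [segment_eq_image']
      refine ⟨r⁻¹, ⟨by positivity, inv_le_one_of_one_le₀ h1⟩, ?_⟩
      simp only
      rw [hcb, smul_smul, inv_mul_cancel₀ hr.ne', one_smul]; abel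
    have : a ∈ ({b} : Set E3) := h ⟨left_mem_segment _ _ _, ha⟩
    exact hab (Set.mem_singleton_iff.1 this)

/-- Invariance under rigid motions. -/
lemma segment_rigid (g : E3 ≃ₗᵢ[ℝ] E3) (c a b : E3) :
    segment ℝ (g a + c) (g b + c) = (fun x => g x + c) '' segment ℝ a b := by
  ext z
  constructor
  · rintro ⟨s, t, hs, ht, hst, rfl⟩
    refine ⟨s • a + t • b, ⟨s, t, hs, ht, hst, rfl⟩, ?_⟩
    simp only [map_add, map_smul, smul_add]
    have : c = s • c + t • c := by rw [← add_smul, hst, one_smul]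
    nth_rewrite 1 [this]
    abel
  · rintro ⟨_, ⟨s, t, hs, ht, hst, rfl⟩, rfl⟩
    refine ⟨s, t, hs, ht, hst, ?_⟩
    simp only [map_add, map_smul, smul_add]
    have : c = s • c + t • c := by rw [← add_smul, hst, one_smul]
    nth_rewrite 3 [this]
    abel

lemma rigid_injective (g : E3 ≃ₗᵢ[ℝ] E3) (c : E3) : Function.Injective (fun x => g x + c) := by
  intro x y h
  simpa using h

lemma isSimple_rigid {n : ℕ} {p : Fin (n + 1) → E3} (hp : IsSimple p) (g : E3 ≃ₗᵢ[ℝ] E3)
    (c : E3) : IsSimple (fun i => g (p i) + c) := by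
  obtain ⟨h1, h2, h3⟩ := hp
  refine ⟨?_, ?_, ?_⟩
  · intro i h
    exact h1 i (rigid_injective g c h)
  · intro i j hij
    simp only [segment_rigid]
    exact Set.disjoint_image_of_injective (rigid_injective g c) (h2 i j hij)
  · intro i j hij
    simp only [segment_rigid]
    rw [← Set.image_inter (rigid_injective g c)]
    rintro _ ⟨x, hx, rfl⟩
    have := h3 i j hij hx
    rw [Set.mem_singleton_iff] at this ⊢
    rw [this]

lemma sameChain_rigid {n : ℕ} (p : Fin (n + 1) → E3) (g : E3 ≃ₗᵢ[ℝ] E3) (c : E3) :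
    SameChain (fun i => g (p i) + c) p := by
  refine ⟨?_, ?_⟩
  · intro i
    simp only [dist_add_right, g.dist_map]
  · intro i j _
    unfold EuclideanGeometry.angle
    simp only [vsub_eq_sub, add_sub_add_right_eq_sub, ← map_sub]
    exact g.toLinearIsometry.angle_map _ _

end Pool.Agent.Helper214_flat
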