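import Mathlib
import Pool.Agent.Helper214_flat.Core
import Pool.Agent.Helper214_flat.Defs

set_option autoImplicit false

open scoped RealInnerProductSpace
open Real Finset EuclideanGeometry

namespace Pool.Agent.Helper214_flat

lemma isLinearMap_z : IsLinearMap ℝ (fun z : E3 => z 2) := ⟨fun _ _ => rfl, fun _ _ => rfl⟩

lemma seg_gt {a b z : E3} {c : ℝ} (ha : c < a 2) (hb : c < b 2) (hz : z ∈ segment ℝ a b) :
    c < z 2 :=
  (convex_halfSpace_gt isLinearMap_z c).segment_subset ha hb hz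

lemma seg_ge {a b z : E3} {c : ℝ} (ha : c ≤ a 2) (hb : c ≤ b 2) (hz : z ∈ segment ℝ a b) :
    c ≤ z 2 :=
  (convex_halfSpace_ge isLinearMap_z c).segment_subset ha hb hz

lemma seg_lt {a b z : E3} {c : ℝ} (ha : a 2 < c) (hb : b 2 < c) (hz : z ∈ segment ℝ a b) :
    z 2 < c :=
  (convex_halfSpace_lt isLinearMap_z c).segment_subset ha hb hz

lemma seg_le {a b z : E3} {c : ℝ} (ha : a 2 ≤ c) (hb : b 2 ≤ c) (hz : z ∈ segment ℝ a b) :
    z 2 ≤ c :=
  (convex_halfSpace_le isLinearMap_z c).segment_subset ha hb hz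

lemma disjoint_of_gt {a b a' b' : E3} {c : ℝ} (ha : c < a 2) (hb : c < b 2) (ha' : a' 2 ≤ c)
    (hb' : b' 2 ≤ c) : Disjoint (segment ℝ a b) (segment ℝ a' b') := by
  rw [Set.disjoint_left]
  intro z hz hz'
  exact absurd (seg_gt ha hb hz) (not_lt.2 (seg_le ha' hb' hz'))

lemma disjoint_of_ge {a b a' b' : E3} {c : ℝ} (ha : c ≤ a 2) (hb : c ≤ b 2) (ha' : a' 2 < c)
    (hb' : b' 2 < c) : Disjoint (segment ℝ a b) (segment ℝ a' b') := by
  rw [Set.disjoint_left]
  intro z hz hz'
  exact absurd (seg_lt ha' hb' hz') (not_lt.2 (seg_ge ha hb hz))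

lemma gram_inner {a b a' b' : E3} (ha : ‖a‖ = ‖a'‖) (hb : ‖b‖ = ‖b'‖) (hab : ⟪a, b⟫ = ⟪a', b'⟫)
    (α β γ δ : ℝ) :
    ⟪α • a + β • b, γ • a + δ • b⟫ = ⟪α • a' + β • b', γ • a' + δ • b'⟫ := by
  have h1 : ⟪b, a⟫ = ⟪a, b⟫ := real_inner_comm _ _
  have h2 : ⟪b', a'⟫ = ⟪a', b'⟫ := real_inner_comm _ _
  simp only [inner_add_left, inner_add_right, real_inner_smul_left, real_inner_smul_right,
    real_inner_self_eq_norm_sq, h1, h2, ha, hb, hab]

lemma gram_norm {a b a' b' : E3} (ha : ‖a‖ = ‖a'‖) (hb : ‖b‖ = ‖b'‖) (hab : ⟪a, b⟫ = ⟪a', b'⟫)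
    (α β : ℝ) : ‖α • a + β • b‖ = ‖α • a' + β • b'‖ := by
  rw [norm_eq_sqrt_real_inner, norm_eq_sqrt_real_inner, gram_inner ha hb hab]

lemma gram_angle {a b a' b' : E3} (ha : ‖a‖ = ‖a'‖) (hb : ‖b‖ = ‖b'‖) (hab : ⟪a, b⟫ = ⟪a', b'⟫)
    (α β γ δ : ℝ) :
    InnerProductGeometry.angle (α • a + β • b) (γ • a + δ • b) =
      InnerProductGeometry.angle (α • a' + β • b') (γ • a' + δ • b') := by
  unfold InnerProductGeometry.angle
  rw [gram_inner ha hb hab, gram_norm ha hb hab, gram_norm ha hb hab]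

/-- Positions in terms of directions, locally. -/
def Diffs (n : ℕ) (α β γ δ : ℕ → ℝ) (w x : ℕ → E3) : Prop :=
  ∀ k, k + 1 < n → x k - x (k + 1) = α k • w k + β k • w (k + 1) ∧
    x (k + 2) - x (k + 1) = γ k • w k + δ k • w (k + 1)

lemma Diffs.angle_eq {n : ℕ} {α β γ δ : ℕ → ℝ} {w x w' x' : ℕ → E3} (h : Diffs n α β γ δ w x)
    (h' : Diffs n α β γ δ w' x') (hn : ∀ k < n, ‖w k‖ = ‖w' k‖)
    (hi : ∀ k, k + 1 < n → ⟪w k, w (k + 1)⟫ = ⟪w' k, w' (k + 1)⟫) {k : ℕ} (hk : k + 1 < n) :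
    ∠ (x k) (x (k + 1)) (x (k + 2)) = ∠ (x' k) (x' (k + 1)) (x' (k + 2)) := by
  unfold EuclideanGeometry.angle
  simp only [vsub_eq_sub]
  rw [(h k hk).1, (h k hk).2, (h' k hk).1, (h' k hk).2]
  exact gram_angle (hn k (by omega)) (hn (k + 1) hk) (hi k hk) _ _ _ _

lemma Diffs.dist_eq {n : ℕ} {α β γ δ : ℕ → ℝ} {w x w' x' : ℕ → E3} (h : Diffs n α β γ δ w x)
    (h' : Diffs n α β γ δ w' x') (hn : ∀ k < n, ‖w k‖ = ‖w' k‖)
    (hi : ∀ k, k + 1 < n → ⟪w k, w (k + 1)⟫ = ⟪w' k, w' (k + 1)⟫) (hn2 : 2 ≤ n) {k : ℕ}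
    (hk : k < n) : dist (x k) (x (k + 1)) = dist (x' k) (x' (k + 1)) := by
  by_cases hk1 : k + 1 < n
  · rw [dist_eq_norm, dist_eq_norm, (h k hk1).1, (h' k hk1).1]
    exact gram_norm (hn k (by omega)) (hn (k + 1) hk1) (hi k hk1) _ _
  · obtain ⟨j, rfl⟩ : ∃ j, k = j + 1 := ⟨k - 1, by omega⟩
    rw [dist_comm, dist_comm (x' _), dist_eq_norm, dist_eq_norm, (h j (by omega)).2,
      (h' j (by omega)).2]
    exact gram_norm (hn j (by omega)) (hn (j + 1) hk) (hi j (by omega)) _ _

/-- A realization with chords at both ends. -/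
structure ChordReal (n : ℕ) (l : ℕ → ℝ) (L0 Ln : ℝ) (w x : ℕ → E3) : Prop where
  first : x 2 - x 0 = L0 • w 0
  mid : ∀ k, 1 ≤ k → k + 2 ≤ n → x (k + 1) - x k = l k • w k
  last : x n - x (n - 2) = Ln • w (n - 1)

lemma ChordReal.diffs {n : ℕ} {l : ℕ → ℝ} {L0 Ln : ℝ} {w x : ℕ → E3}
    (h : ChordReal n l L0 Ln w x) (hn : 4 ≤ n) :
    Diffs n (fun k => if k = 0 then - L0 else - l k) (fun k => if k = 0 then l 1 else 0)
      (fun k => if k + 2 = n then - l k else 0)
      (fun k => if k + 2 = n then Ln else l (k + 1)) w x := by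
  intro k hk
  constructor
  · by_cases h0 : k = 0
    · subst h0
      have h1 := h.first
      have h2 := h.mid 1 le_rfl (by omega)
      simp only [if_true, neg_smul, Nat.zero_add]
      rw [← h1, ← h2]
      abel
    · have h1 := h.mid k (by omega) (by omega)
      simp only [h0, if_false, neg_smul, zero_smul, add_zero]
      rw [← h1]
      abel
  · by_cases h0 : k + 2 = n
    · have h1 := h.last
      have h2 := h.mid k (by omega) (by omega)
      simp only [h0, if_true, neg_smul]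
      rw [show n - 2 = k by omega, show n - 1 = k + 1 by omega] at h1
      rw [← h1, ← h2]
      abel
    · have h1 := h.mid (k + 1) (by omega) (by omega)
      simp only [h0, if_false, zero_smul, zero_add]
      exact h1

lemma ChordReal.disjoint {n : ℕ} {l : ℕ → ℝ} {L0 Ln : ℝ} {w x : ℕ → E3}
    (h : ChordReal n l L0 Ln w x) (hn : 4 ≤ n) (hl : ∀ k, 1 ≤ k → k + 2 ≤ n → 0 < l k)
    (hL0 : 0 < L0) (hLn : 0 < Ln) (hw : ∀ k < n, w k 2 < 0) {j k : ℕ} (hjk : j + 1 < k)
    (hk : k < n) :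
    Disjoint (segment ℝ (x j) (x (j + 1))) (segment ℝ (x k) (x (k + 1))) := by
  have z1 : x 2 2 < x 0 2 := by
    have := congrArg (fun z : E3 => z 2) h.first
    simp only [PiLp.sub_apply, PiLp.smul_apply, smul_eq_mul] at this
    nlinarith [mul_pos hL0 (neg_pos.2 (hw 0 (by omega)))]
  have z2 : ∀ k, 1 ≤ k → k + 2 ≤ n → x (k + 1) 2 < x k 2 := by
    intro k hk1 hk2
    have := congrArg (fun z : E3 => z 2) (h.mid k hk1 hk2)
    simp only [PiLp.sub_apply, PiLp.smul_apply, smul_eq_mul] at this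
    nlinarith [mul_pos (hl k hk1 hk2) (neg_pos.2 (hw k (by omega)))]
  have z3 : x n 2 < x (n - 2) 2 := by
    have := congrArg (fun z : E3 => z 2) h.last
    simp only [PiLp.sub_apply, PiLp.smul_apply, smul_eq_mul] at this
    nlinarith [mul_pos hLn (neg_pos.2 (hw (n - 1) (by omega)))]
  have mono : ∀ a b, 1 ≤ a → a ≤ b → b + 1 ≤ n → x b 2 ≤ x a 2 := by
    intro a b ha hab
    induction b, hab using Nat.le_induction with
    | base => intro _; exact le_rfl
    | succ b hb ih =>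
      intro hbn
      exact (z2 b (by omega) (by omega)).le.trans (ih (by omega))
  have z4 : x (n - 1) 2 < x (n - 2) 2 := by
    have := z2 (n - 2) (by omega) (by omega)
    rwa [show n - 2 + 1 = n - 1 by omega] at this
  by_cases hj0 : j = 0
  · subst hj0
    have a1 : x 2 2 < x 1 2 := z2 1 le_rfl (by omega)
    refine disjoint_of_gt (c := x 2 2) z1 a1 (mono 2 k (by omega) (by omega) (by omega)) ?_
    by_cases hkn : k + 1 = n
    · rw [hkn]
      exact z3.le.trans (mono 2 (n - 2) (by omega) (by omega) (by omega))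
    · exact mono 2 (k + 1) (by omega) (by omega) (by omega)
  · by_cases hkn : k + 1 = n
    · refine disjoint_of_ge (c := x (n - 2) 2) (mono j (n - 2) (by omega) (by omega) (by omega))
        (mono (j + 1) (n - 2) (by omega) (by omega) (by omega)) ?_ ?_
      · rw [show k = n - 1 by omega]; exact z4
      · rw [hkn]; exact z3
    · have a1 : x k 2 < x (j + 1) 2 := by
        have := z2 (k - 1) (by omega) (by omega)
        rw [show k - 1 + 1 = k by omega] at this
        exact this.trans_le (mono (j + 1) (k - 1) (by omega) (by omega) (by omega))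
      have a2 : x k 2 < x j 2 := a1.trans_le (mono j (j + 1) (by omega) (by omega) (by omega))
      exact disjoint_of_gt (c := x k 2) a2 a1 le_rfl
        (mono k (k + 1) (by omega) (by omega) (by omega))

/-- Coefficients of the vertices in a realization with chords at both ends. -/
noncomputable def chordCoef (n : ℕ) (l : ℕ → ℝ) (L0 Ln : ℝ) (i k : ℕ) : ℝ :=
  if i = 0 then (if k = 0 then - L0 else if k = 1 then l 1 else 0)
  else if i = n then (if k + 1 = n then Ln else if 1 ≤ k ∧ k + 2 < n then l k else 0)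
  else (if 1 ≤ k ∧ k < i then l k else 0)

lemma lin_sub {ι : Type*} {m : ℕ} {c : ι → ℕ → ℝ} {w : ℕ → E3} {i j : ι} {k₀ : ℕ} {L : ℝ}
    (hk₀ : k₀ ≤ m) (h : ∀ k ≤ m, c j k - c i k = if k = k₀ then L else 0) :
    lin m c w j - lin m c w i = L • w k₀ := by
  unfold lin
  rw [← sum_sub_distrib]
  have : ∀ k ∈ range (m + 1), c j k • w k - c i k • w k = if k = k₀ then L • w k₀ else 0 := by
    intro k hk
    rw [← sub_smul, h k (by simpa [Nat.lt_succ_iff] using hk)]
    split_ifs with h1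
    · rw [h1]
    · rw [zero_smul]
  rw [sum_congr rfl this, sum_ite_eq' (range (m + 1)) k₀ (fun _ => L • w k₀)]
  simp [Nat.lt_succ_of_le hk₀]

lemma chordReal_lin {n : ℕ} (hn : 4 ≤ n) (l : ℕ → ℝ) (L0 Ln : ℝ) (w : ℕ → E3) :
    ChordReal n l L0 Ln w (lin (n - 1) (chordCoef n l L0 Ln) w) where
  first := by
    refine lin_sub (by omega) ?_
    intro k hk
    unfold chordCoef
    by_cases h0 : k = 0
    · subst h0; simp [show ¬ 2 = n by omega]
    · by_cases h1 : k = 1
      · subst h1; simp [show ¬ 2 = n by omega]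
      · simp [show ¬ 2 = n by omega, h0, h1, show ¬ k < 2 by omega]
  mid := by
    intro i hi1 hi2
    refine lin_sub (by omega) ?_
    intro k hk
    have e1 : chordCoef n l L0 Ln (i + 1) k = if 1 ≤ k ∧ k < i + 1 then l k else 0 := by
      unfold chordCoef
      rw [if_neg (show ¬ i + 1 = 0 by omega), if_neg (show ¬ i + 1 = n by omega)]
    have e2 : chordCoef n l L0 Ln i k = if 1 ≤ k ∧ k < i then l k else 0 := by
      unfold chordCoef
      rw [if_neg (show ¬ i = 0 by omega), if_neg (show ¬ i = n by omega)]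
    rw [e1, e2]
    rcases lt_trichotomy k i with h | h | h
    · by_cases h0 : 1 ≤ k
      · rw [if_pos (show 1 ≤ k ∧ k < i + 1 by omega), if_pos (show 1 ≤ k ∧ k < i by omega),
          if_neg (show ¬ k = i by omega), sub_self]
      · rw [if_neg (show ¬ (1 ≤ k ∧ k < i + 1) by omega), if_neg (show ¬ (1 ≤ k ∧ k < i) by omega),
          if_neg (show ¬ k = i by omega), sub_self]
    · subst h
      rw [if_pos (show 1 ≤ k ∧ k < k + 1 by omega), if_neg (show ¬ (1 ≤ k ∧ k < k) by omega),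
        if_pos rfl, sub_zero]
    · rw [if_neg (show ¬ (1 ≤ k ∧ k < i + 1) by omega), if_neg (show ¬ (1 ≤ k ∧ k < i) by omega),
        if_neg (show ¬ k = i by omega), sub_self]
  last := by
    refine lin_sub (by omega) ?_
    intro k hk
    unfold chordCoef
    rw [if_neg (show ¬ n = 0 by omega), if_pos rfl, if_neg (show ¬ n - 2 = 0 by omega),
      if_neg (show ¬ n - 2 = n by omega)]
    by_cases h1 : k + 1 = n
    · rw [if_pos h1, if_neg (by omega), if_pos (by omega), sub_zero]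
    · rw [if_neg h1, if_neg (show ¬ k = n - 1 by omega)]
      by_cases h2 : 1 ≤ k ∧ k + 2 < n
      · rw [if_pos h2, if_pos ⟨h2.1, by omega⟩, sub_self]
      · rw [if_neg h2, if_neg (by omega), sub_self]

/-- Positions are determined by the differences. -/
lemma ChordReal.eq_add {n : ℕ} {l : ℕ → ℝ} {L0 Ln : ℝ} {w x y : ℕ → E3}
    (hx : ChordReal n l L0 Ln w x) (hy : ChordReal n l L0 Ln w y) (hn : 4 ≤ n) :
    ∀ i ≤ n, x i = y i + (x 1 - y 1) := by
  have hmid : ∀ i, 1 ≤ i → i + 1 ≤ n → x i = y i + (x 1 - y 1) := by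
    intro i hi
    induction i, hi using Nat.le_induction with
    | base => intro _; abel
    | succ i hi ih =>
      intro hin
      have h1 := hx.mid i hi (by omega)
      have h2 := hy.mid i hi (by omega)
      have h3 := ih (by omega)
      have h4 : x (i + 1) = x i + (y (i + 1) - y i) := by rw [h2, ← h1]; abel
      rw [h4, h3]; abel
  intro i hi
  by_cases h0 : i = 0
  · subst h0
    have h1 := hx.first
    have h2 := hy.first
    have h3 := hmid 2 (by omega) (by omega)
    have h4 : x 0 = x 2 - (y 2 - y 0) := by rw [h2, ← h1]; abel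
    rw [h4, h3]; abel
  · by_cases h1 : i = n
    · subst h1
      have h1 := hx.last
      have h2 := hy.last
      have h3 := hmid (i - 2) (by omega) (by omega)
      have h4 : x i = x (i - 2) + (y i - y (i - 2)) := by rw [h2, ← h1]; abel
      rw [h4, h3]; abel
    · exact hmid i (by omega) (by omega)

end Pool.Agent.Helper214_flat
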