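import Mathlib
import Pool.Agent.Helper214_flat.Realize

set_option autoImplicit false

open scoped RealInnerProductSpace
open Real Finset EuclideanGeometry

namespace Pool.Agent.Helper214_flat

/-- The reduced turn angle at the joint `k`, that is, at the vertex `k + 1`. For a joint which is
not an end joint this is `π` minus the joint angle. At the first joint it is the angle at the
vertex `2` of the triangle with vertices `0`, `1`, `2`, and symmetrically at the last joint. -/
noncomputable def turn {n : ℕ} (P : Fin (n + 1) → E3) (k : ℕ) : ℝ :=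
  if k = 0 then ∠ (pt P 0) (pt P 2) (pt P 1)
  else if k + 2 = n then ∠ (pt P n) (pt P (n - 2)) (pt P (n - 1))
  else π - ∠ (pt P k) (pt P (k + 1)) (pt P (k + 2))

/-- The inner product of the vector products of the links at the joints `i` and `j`. -/
noncomputable def turnProduct {n : ℕ} (P : Fin (n + 1) → E3) (i j : ℕ) : ℝ :=
  ⟪pt P (i + 1) - pt P i, pt P (j + 1) - pt P j⟫ *
    ⟪pt P (i + 2) - pt P (i + 1), pt P (j + 2) - pt P (j + 1)⟫ -
  ⟪pt P (i + 1) - pt P i, pt P (j + 2) - pt P (j + 1)⟫ *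
    ⟪pt P (i + 2) - pt P (i + 1), pt P (j + 1) - pt P j⟫

lemma inner_eq_of_angle {a b c a' b' c' : E3} (h1 : dist a b = dist a' b')
    (h2 : dist b c = dist b' c') (h3 : ∠ a b c = ∠ a' b' c') :
    ⟪a - b, c - b⟫ = ⟪a' - b', c' - b'⟫ := by
  have e1 : ‖a - b‖ = ‖a' - b'‖ := by rw [← dist_eq_norm, ← dist_eq_norm, h1]
  have e2 : ‖c - b‖ = ‖c' - b'‖ := by
    rw [← dist_eq_norm, ← dist_eq_norm, dist_comm c, dist_comm c', h2]
  have h4 := InnerProductGeometry.cos_angle_mul_norm_mul_norm (a - b) (c - b)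
  have h5 := InnerProductGeometry.cos_angle_mul_norm_mul_norm (a' - b') (c' - b')
  unfold EuclideanGeometry.angle at h3
  simp only [vsub_eq_sub] at h3
  rw [← h4, ← h5, h3, e1, e2]

lemma tri {a b c a' b' c' : E3} (h1 : dist a b = dist a' b')
    (h2 : dist b c = dist b' c') (h3 : ∠ a b c = ∠ a' b' c') :
    dist a c = dist a' c' ∧ ∠ a c b = ∠ a' c' b' := by
  have e1 : ‖a - b‖ = ‖a' - b'‖ := by rw [← dist_eq_norm, ← dist_eq_norm, h1]
  have e2 : ‖c - b‖ = ‖c' - b'‖ := by
    rw [← dist_eq_norm, ← dist_eq_norm, dist_comm c, dist_comm c', h2]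
  have e3 := inner_eq_of_angle h1 h2 h3
  have k1 : ∀ a b c : E3, a - c = (1 : ℝ) • (a - b) + (-1 : ℝ) • (c - b) := by
    intro a b c
    rw [one_smul, neg_one_smul]; abel
  have k2 : ∀ a b c : E3, b - c = (0 : ℝ) • (a - b) + (-1 : ℝ) • (c - b) := by
    intro a b c
    rw [zero_smul, neg_one_smul]; abel
  constructor
  · rw [dist_eq_norm, dist_eq_norm, k1 a b c, k1 a' b' c']
    exact gram_norm e1 e2 e3 _ _
  · unfold EuclideanGeometry.angle
    simp only [vsub_eq_sub]
    rw [k1 a b c, k1 a' b' c', k2 a b c, k2 a' b' c']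
    exact gram_angle e1 e2 e3 _ _ _ _

lemma turn_congr {n : ℕ} {P Q : Fin (n + 1) → E3} (h : SameChain P Q) {k : ℕ} (hk : k + 1 < n) :
    turn P k = turn Q k := by
  obtain ⟨h1, h2⟩ := (sameChain_iff P Q).1 h
  unfold turn
  by_cases h0 : k = 0
  · rw [if_pos h0, if_pos h0]
    exact (tri (h1 0 (by omega)) (h1 1 (by omega)) (h2 0 (by omega))).2
  · rw [if_neg h0, if_neg h0]
    by_cases h3 : k + 2 = n
    · rw [if_pos h3, if_pos h3]
      have e1 := h1 (n - 1) (by omega)
      have e2 := h1 (n - 2) (by omega)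
      have e3 := h2 (n - 2) (by omega)
      rw [show n - 1 + 1 = n by omega] at e1
      rw [show n - 2 + 1 = n - 1 by omega] at e2 e3
      rw [show n - 2 + 2 = n by omega] at e3
      refine (tri ?_ ?_ ?_).2
      · rw [dist_comm, e1, dist_comm]
      · rw [dist_comm, e2, dist_comm]
      · rw [EuclideanGeometry.angle_comm, e3, EuclideanGeometry.angle_comm]
    · rw [if_neg h3, if_neg h3, h2 k hk]

lemma cos_angle_normalized {x y : E3} {a b : ℝ} (ha : a = ‖x‖) (hb : b = ‖y‖) (hx : x ≠ 0)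
    (hy : y ≠ 0) : ⟪a⁻¹ • x, b⁻¹ • y⟫ = cos (InnerProductGeometry.angle x y) := by
  have h1 : ‖x‖ ≠ 0 := norm_ne_zero_iff.2 hx
  have h2 : ‖y‖ ≠ 0 := norm_ne_zero_iff.2 hy
  rw [InnerProductGeometry.cos_angle, real_inner_smul_left, real_inner_smul_right, ha, hb]
  field_simp

/-- The directions of a chain, with chords at both ends. -/
noncomputable def dirs {n : ℕ} (P : Fin (n + 1) → E3) (k : ℕ) : E3 :=
  if k = 0 then (dist (pt P 0) (pt P 2))⁻¹ • (pt P 2 - pt P 0)
  else if k + 1 = n then (dist (pt P (n - 2)) (pt P n))⁻¹ • (pt P n - pt P (n - 2))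
  else (dist (pt P k) (pt P (k + 1)))⁻¹ • (pt P (k + 1) - pt P k)

section

variable {n : ℕ} {P : Fin (n + 1) → E3}

lemma simple_ne (hP : IsSimple P) {k : ℕ} (hk : k < n) : pt P k ≠ pt P (k + 1) :=
  ((isSimple_iff P).1 hP).1 k hk

lemma simple_angle (hP : IsSimple P) {k : ℕ} (hk : k + 1 < n) :
    ∠ (pt P k) (pt P (k + 1)) (pt P (k + 2)) ≠ 0 :=
  angle_ne_zero_of_inter (simple_ne hP (by omega)) (simple_ne hP hk)
    (((isSimple_iff P).1 hP).2.2 k hk)

lemma simple_ne2 (hP : IsSimple P) {k : ℕ} (hk : k + 1 < n) : pt P k ≠ pt P (k + 2) := by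
  intro h
  have h1 := simple_angle hP hk
  rw [← h] at h1
  exact h1 (EuclideanGeometry.angle_self_of_ne (simple_ne hP (by omega)))

lemma dist_pos0 (hP : IsSimple P) {k : ℕ} (hk : k < n) : 0 < dist (pt P k) (pt P (k + 1)) :=
  dist_pos.2 (simple_ne hP hk)

lemma dist_pos2 (hP : IsSimple P) {k : ℕ} (hk : k + 1 < n) : 0 < dist (pt P k) (pt P (k + 2)) :=
  dist_pos.2 (simple_ne2 hP hk)

lemma chordReal_pt (hP : IsSimple P) (hn : 4 ≤ n) :
    ChordReal n (fun k => dist (pt P k) (pt P (k + 1))) (dist (pt P 0) (pt P 2))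
      (dist (pt P (n - 2)) (pt P n)) (dirs P) (pt P) where
  first := by
    have h := (dist_pos2 hP (k := 0) (by omega)).ne'
    unfold dirs
    rw [if_pos rfl, smul_smul, mul_inv_cancel₀ h, one_smul]
  mid := by
    intro k hk1 hk2
    have h := (dist_pos0 hP (k := k) (by omega)).ne'
    unfold dirs
    rw [if_neg (by omega), if_neg (by omega), smul_smul, mul_inv_cancel₀ h, one_smul]
  last := by
    have h := (dist_pos2 hP (k := n - 2) (by omega)).ne'
    rw [show n - 2 + 2 = n by omega] at h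
    unfold dirs
    rw [if_neg (by omega), if_pos (by omega), smul_smul, mul_inv_cancel₀ h, one_smul]

lemma norm_dirs (hP : IsSimple P) (hn : 4 ≤ n) {k : ℕ} (hk : k < n) : ‖dirs P k‖ = 1 := by
  have key : ∀ a b : E3, a ≠ b → ‖(dist a b)⁻¹ • (b - a)‖ = 1 := by
    intro a b hab
    have h1 : dist a b ≠ 0 := dist_ne_zero.2 hab
    rw [norm_smul, norm_inv, Real.norm_eq_abs, abs_of_nonneg dist_nonneg, ← dist_eq_norm b a,
      dist_comm b a, inv_mul_cancel₀ h1]
  unfold dirs
  split_ifs with h0 h1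
  · exact key _ _ (simple_ne2 hP (by omega))
  · have := simple_ne2 hP (k := n - 2) (by omega)
    rw [show n - 2 + 2 = n by omega] at this
    exact key _ _ this
  · exact key _ _ (simple_ne hP hk)

lemma turn_bounds (hP : IsSimple P) (hn : 4 ≤ n) {k : ℕ} (hk : k < n - 1) :
    0 ≤ turn P k ∧ turn P k < π := by
  have key : ∀ a b c : E3, ∠ a b c ≠ 0 → ∠ a c b < π := by
    intro a b c h
    refine lt_of_le_of_ne (EuclideanGeometry.angle_le_pi _ _ _) ?_
    intro h1
    rw [EuclideanGeometry.angle_eq_pi_iff_sbtw] at h1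
    apply h
    rw [EuclideanGeometry.angle_comm]
    exact h1.angle₂₃₁_eq_zero
  unfold turn
  split_ifs with h0 h1
  · exact ⟨EuclideanGeometry.angle_nonneg _ _ _, key _ _ _ (simple_angle hP (by omega))⟩
  · refine ⟨EuclideanGeometry.angle_nonneg _ _ _, key _ _ _ ?_⟩
    have := simple_angle hP (k := n - 2) (by omega)
    rw [show n - 2 + 2 = n by omega, show n - 2 + 1 = n - 1 by omega] at this
    rwa [EuclideanGeometry.angle_comm]
  · have h2 := simple_angle hP (k := k) (by omega)
    have h3 := EuclideanGeometry.angle_nonneg (pt P k) (pt P (k + 1)) (pt P (k + 2))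
    have h4 := EuclideanGeometry.angle_le_pi (pt P k) (pt P (k + 1)) (pt P (k + 2))
    have h5 : 0 < ∠ (pt P k) (pt P (k + 1)) (pt P (k + 2)) := lt_of_le_of_ne h3 h2.symm
    exact ⟨by linarith, by linarith⟩

lemma inner_dirs (hP : IsSimple P) (hn : 4 ≤ n) {k : ℕ} (hk : k < n - 1) :
    ⟪dirs P k, dirs P (k + 1)⟫ = cos (turn P k) := by
  have e : ∀ a b : E3, dist a b = ‖b - a‖ := fun a b => by rw [dist_comm, dist_eq_norm]
  have s : ∀ a b : E3, a ≠ b → b - a ≠ 0 := fun a b h => sub_ne_zero.2 h.symm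
  unfold dirs turn
  by_cases h0 : k = 0
  · subst h0
    rw [if_pos rfl, if_neg (show ¬ 0 + 1 = 0 by omega), if_neg (show ¬ 0 + 1 + 1 = n by omega),
      if_pos rfl]
    rw [cos_angle_normalized (e _ _) (e _ _) (s _ _ (simple_ne2 hP (by omega)))
      (s _ _ (simple_ne hP (by omega)))]
    unfold EuclideanGeometry.angle
    rw [vsub_eq_sub, vsub_eq_sub, ← neg_sub (pt P 2) (pt P 0), ← neg_sub (pt P 2) (pt P 1),
      InnerProductGeometry.angle_neg_neg]
  · rw [if_neg h0, if_neg (show ¬ k + 1 = n by omega), if_neg (show ¬ k + 1 = 0 by omega),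
      if_neg h0]
    by_cases h1 : k + 2 = n
    · have hne := simple_ne2 hP (k := n - 2) (by omega)
      rw [show n - 2 + 2 = n by omega] at hne
      rw [if_pos (show k + 1 + 1 = n by omega), if_pos h1]
      rw [cos_angle_normalized (e _ _) (e _ _) (s _ _ (simple_ne hP (by omega))) (s _ _ hne)]
      unfold EuclideanGeometry.angle
      rw [vsub_eq_sub, vsub_eq_sub, InnerProductGeometry.angle_comm,
        show k = n - 2 by omega, show n - 2 + 1 = n - 1 by omega]
    · rw [if_neg (show ¬ k + 1 + 1 = n by omega), if_neg h1]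
      rw [cos_angle_normalized (e _ _) (e _ _) (s _ _ (simple_ne hP (by omega)))
        (s _ _ (simple_ne hP (by omega)))]
      unfold EuclideanGeometry.angle
      rw [vsub_eq_sub, vsub_eq_sub, ← neg_sub (pt P (k + 1)) (pt P k),
        InnerProductGeometry.angle_neg_left]
      congr 1
      ring

end

/-- A unit vector orthogonal to all the differences of vertices of a planar configuration. -/
lemma exists_normal {n : ℕ} {P : Fin (n + 1) → E3} (h : Coplanar ℝ (Set.range P)) :
    ∃ ν : E3, ‖ν‖ = 1 ∧ ∀ i j : ℕ, ⟪ν, pt P i - pt P j⟫ = 0 := by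
  set K := vectorSpan ℝ (Set.range P) with hK
  have h1 : Module.finrank ℝ K ≤ 2 := by
    have h2 : Module.rank ℝ K ≤ 2 := h
    rw [← Module.finrank_eq_rank] at h2
    exact_mod_cast h2
  have h3 := K.finrank_add_finrank_orthogonal
  rw [finrank_E3] at h3
  have h4 : Kᗮ ≠ ⊥ := by
    intro h5
    rw [h5, finrank_bot] at h3
    omega
  obtain ⟨v, hv, hv0⟩ := Submodule.exists_mem_ne_zero_of_ne_bot h4
  have hn : ‖v‖ ≠ 0 := norm_ne_zero_iff.2 hv0
  refine ⟨‖v‖⁻¹ • v, ?_, ?_⟩
  · rw [norm_smul, norm_inv, norm_norm, inv_mul_cancel₀ hn]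
  · intro i j
    rw [real_inner_smul_left]
    have : pt P i - pt P j ∈ K :=
      vsub_mem_vectorSpan ℝ (Set.mem_range_self _) (Set.mem_range_self _)
    rw [Submodule.inner_left_of_mem_orthogonal this hv, mul_zero]

lemma orth_dirs {n : ℕ} {P : Fin (n + 1) → E3} {ν : E3}
    (h : ∀ i j : ℕ, ⟪ν, pt P i - pt P j⟫ = 0) (k : ℕ) : ⟪ν, dirs P k⟫ = 0 := by
  unfold dirs
  split_ifs <;> rw [real_inner_smul_right, h, mul_zero]

/-- The joint `i` of the chain is pinched. -/
def PinchedJoint {n : ℕ} (P : Fin (n + 1) → E3) (i : ℕ) : Prop := Pinched (n - 1) (turn P) i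

lemma turnProduct_eq {n : ℕ} {P : Fin (n + 1) → E3} (hP : IsSimple P) (hn : 4 ≤ n) {i j : ℕ}
    (hi1 : 1 ≤ i) (hi2 : i + 3 ≤ n) (hj1 : 1 ≤ j) (hj2 : j + 3 ≤ n) :
    turnProduct P i j = dist (pt P i) (pt P (i + 1)) * dist (pt P (i + 1)) (pt P (i + 2)) *
      (dist (pt P j) (pt P (j + 1)) * dist (pt P (j + 1)) (pt P (j + 2))) *
      turnDir (dirs P) i j := by
  have h := chordReal_pt hP hn
  unfold turnProduct turnDir
  rw [h.mid i hi1 (by omega), show i + 2 = i + 1 + 1 from rfl, h.mid (i + 1) (by omega) (by omega),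
    h.mid j hj1 (by omega), show j + 2 = j + 1 + 1 from rfl, h.mid (j + 1) (by omega) (by omega)]
  simp only [real_inner_smul_left, real_inner_smul_right]
  ring

theorem joined_four {n : ℕ} (hn : 4 ≤ n) {P Q : Fin (n + 1) → E3} (hP : IsSimple P)
    (hQ : IsSimple Q) (cP : Coplanar ℝ (Set.range P)) (cQ : Coplanar ℝ (Set.range Q))
    (hPQ : SameChain Q P)
    (hs : ∀ i j, i < j → PinchedJoint P i → PinchedJoint P j →
      turnProduct P i j = turnProduct Q i j) :
    JoinedIn {p | IsSimple p ∧ SameChain p P} P Q := by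
  obtain ⟨ν, hν, hνP⟩ := exists_normal cP
  obtain ⟨μ, hμ, hμQ⟩ := exists_normal cQ
  obtain ⟨d1, a1⟩ := (sameChain_iff Q P).1 hPQ
  set l : ℕ → ℝ := fun k => dist (pt P k) (pt P (k + 1)) with hl
  set L0 := dist (pt P 0) (pt P 2) with hL0
  set Ln := dist (pt P (n - 2)) (pt P n) with hLn
  have rP : ChordReal n l L0 Ln (dirs P) (pt P) := chordReal_pt hP hn
  have rQ : ChordReal n l L0 Ln (dirs Q) (pt Q) := by
    have h := chordReal_pt hQ hn
    have e0 : dist (pt Q 0) (pt Q 2) = L0 :=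
      (tri (d1 0 (by omega)) (d1 1 (by omega)) (a1 0 (by omega))).1
    have e1 : dist (pt Q (n - 2)) (pt Q n) = Ln := by
      have h1 := d1 (n - 2) (by omega)
      have h2 := d1 (n - 1) (by omega)
      have h3 := a1 (n - 2) (by omega)
      rw [show n - 2 + 1 = n - 1 by omega] at h1 h3
      rw [show n - 1 + 1 = n by omega] at h2
      rw [show n - 2 + 2 = n by omega] at h3
      exact (tri h1 h2 h3).1
    rw [e0, e1] at h
    refine ⟨h.first, ?_, h.last⟩
    intro k hk1 hk2
    rw [h.mid k hk1 hk2]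
    simp only [hl]
    rw [d1 k (by omega)]
  have hτ : ∀ k < n - 1, 0 ≤ turn P k ∧ turn P k < π := fun k hk => turn_bounds hP hn hk
  have hpos : ∀ k, 1 ≤ k → k + 2 ≤ n → 0 < l k := fun k _ hk => dist_pos0 hP (by omega)
  have hL0pos : 0 < L0 := dist_pos2 hP (k := 0) (by omega)
  have hLnpos : 0 < Ln := by
    have := dist_pos2 hP (k := n - 2) (by omega)
    rwa [show n - 2 + 2 = n by omega] at this
  have hlin := chordReal_lin hn l L0 Ln
  refine core (m := n - 1) (τ := turn P) hτ (fun (i : Fin (n + 1)) k => chordCoef n l L0 Ln i.val k)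
    {p | IsSimple p ∧ SameChain p P} ?_ ?_ ⟨hP, SameChain.refl P⟩ ⟨hQ, hPQ⟩
    (u := dirs P) (v := dirs Q) (a := pt P 1 - lin (n - 1) (chordCoef n l L0 Ln) (dirs P) 1)
    (b := pt Q 1 - lin (n - 1) (chordCoef n l L0 Ln) (dirs Q) 1) ?_ ?_ ?_ ?_ ?_ ?_ hν hμ
    (fun k _ => orth_dirs hνP k) (fun k _ => orth_dirs hμQ k) ?_
  · rintro p ⟨h1, h2⟩ g c
    exact ⟨isSimple_rigid h1 g c, (sameChain_rigid p g c).trans h2⟩
  · intro w hw
    set x : ℕ → E3 := lin (n - 1) (chordCoef n l L0 Ln) w with hx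
    set p : Fin (n + 1) → E3 :=
      lin (n - 1) (fun (i : Fin (n + 1)) k => chordCoef n l L0 Ln i.val k) w with hp
    have hpx : ∀ k ≤ n, pt p k = x k := by
      intro k hk
      have : min k n = k := min_eq_left hk
      simp only [pt, hp, hx, lin]
      rw [this]
    have rx : ChordReal n l L0 Ln w x := hlin w
    have hnorm : ∀ k < n, ‖w k‖ = ‖dirs P k‖ := by
      intro k hk
      rw [hw.norm k (by omega), norm_dirs hP hn hk]
    have hinner : ∀ k, k + 1 < n → ⟪w k, w (k + 1)⟫ = ⟪dirs P k, dirs P (k + 1)⟫ := by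
      intro k hk
      rw [hw.inner k (by omega), inner_dirs hP hn (by omega)]
    have hdist : ∀ k < n, dist (x k) (x (k + 1)) = dist (pt P k) (pt P (k + 1)) := fun k hk =>
      (rx.diffs hn).dist_eq (rP.diffs hn) hnorm hinner (by omega) hk
    have hang : ∀ k, k + 1 < n → ∠ (x k) (x (k + 1)) (x (k + 2)) =
        ∠ (pt P k) (pt P (k + 1)) (pt P (k + 2)) := fun k hk =>
      (rx.diffs hn).angle_eq (rP.diffs hn) hnorm hinner hk
    constructor
    · rw [isSimple_iff]
      refine ⟨?_, ?_, ?_⟩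
      · intro k hk
        rw [hpx k hk.le, hpx (k + 1) hk, ← dist_pos, hdist k hk]
        exact dist_pos0 hP hk
      · intro j k hjk hk
        rw [hpx j (by omega), hpx (j + 1) (by omega), hpx k (by omega), hpx (k + 1) (by omega)]
        exact rx.disjoint hn hpos hL0pos hLnpos (fun k hk => hw.neg k (by omega)) hjk hk
      · intro k hk
        rw [hpx k (by omega), hpx (k + 1) (by omega), hpx (k + 2) (by omega)]
        refine inter_subset_of_angle ?_
        rw [hang k hk]
        exact simple_angle hP hk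
    · rw [sameChain_iff]
      refine ⟨?_, ?_⟩
      · intro k hk
        rw [hpx k hk.le, hpx (k + 1) hk]
        exact hdist k hk
      · intro k hk
        rw [hpx k (by omega), hpx (k + 1) (by omega), hpx (k + 2) (by omega)]
        exact hang k hk
  · intro i
    have := rP.eq_add (hlin (dirs P)) hn i.val (by omega)
    rw [pt_val P i]
    exact this
  · intro i
    have := rQ.eq_add (hlin (dirs Q)) hn i.val (by omega)
    rw [pt_val Q i]
    exact this
  · intro k hk
    exact norm_dirs hP hn (by omega)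
  · intro k hk
    exact norm_dirs hQ hn (by omega)
  · intro k hk
    exact inner_dirs hP hn hk
  · intro k hk
    rw [inner_dirs hQ hn hk, turn_congr hPQ (by omega)]
  · intro i j hij hj hpi hpj
    have h := hs i j hij hpi hpj
    obtain ⟨a, b, ha, hb, hbm, -, -, -⟩ := hpi
    obtain ⟨a', b', ha', hb', hbm', -, -, -⟩ := hpj
    rw [turnProduct_eq hP hn (by omega) (by omega) (by omega) (by omega),
      turnProduct_eq hQ hn (by omega) (by omega) (by omega) (by omega),
      d1 i (by omega), d1 (i + 1) (by omega), d1 j (by omega), d1 (j + 1) (by omega)] at h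
    refine mul_left_cancel₀ ?_ h
    have p1 := dist_pos0 hP (k := i) (by omega)
    have p2 := dist_pos0 hP (k := i + 1) (by omega)
    have p3 := dist_pos0 hP (k := j) (by omega)
    have p4 := dist_pos0 hP (k := j + 1) (by omega)
    exact (mul_pos (mul_pos p1 p2) (mul_pos p3 p4)).ne'

end Pool.Agent.Helper214_flat
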