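import Mathlib
import Pool.Agent.Helper214_flat.Main

set_option autoImplicit false

open scoped RealInnerProductSpace
open Real Finset EuclideanGeometry

namespace Pool.Agent.Helper214_flat

/-- A realization by all the links. -/
def PlainReal (n : ℕ) (l : ℕ → ℝ) (w x : ℕ → E3) : Prop :=
  ∀ k < n, x (k + 1) - x k = l k • w k

lemma PlainReal.diffs {n : ℕ} {l : ℕ → ℝ} {w x : ℕ → E3} (h : PlainReal n l w x) :
    Diffs n (fun k => - l k) (fun _ => 0) (fun _ => 0) (fun k => l (k + 1)) w x := by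
  intro k hk
  have h1 := h k (by omega)
  have h2 := h (k + 1) hk
  constructor
  · rw [zero_smul, add_zero, neg_smul, ← h1]; abel
  · rw [zero_smul, zero_add, ← h2]

lemma PlainReal.disjoint {n : ℕ} {l : ℕ → ℝ} {w x : ℕ → E3} (h : PlainReal n l w x)
    (hl : ∀ k < n, 0 < l k) (hw : ∀ k < n, w k 2 < 0) {j k : ℕ} (hjk : j + 1 < k) (hk : k < n) :
    Disjoint (segment ℝ (x j) (x (j + 1))) (segment ℝ (x k) (x (k + 1))) := by
  have z2 : ∀ k < n, x (k + 1) 2 < x k 2 := by
    intro k hk
    have := congrArg (fun z : E3 => z 2) (h k hk)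
    simp only [PiLp.sub_apply, PiLp.smul_apply, smul_eq_mul] at this
    nlinarith [mul_pos (hl k hk) (neg_pos.2 (hw k hk))]
  have mono : ∀ a b, a ≤ b → b ≤ n → x b 2 ≤ x a 2 := by
    intro a b hab
    induction b, hab using Nat.le_induction with
    | base => intro _; exact le_rfl
    | succ b hb ih =>
      intro hbn
      exact (z2 b (by omega)).le.trans (ih (by omega))
  have a1 : x k 2 < x (j + 1) 2 := by
    have := z2 (k - 1) (by omega)
    rw [show k - 1 + 1 = k by omega] at this
    exact this.trans_le (mono (j + 1) (k - 1) (by omega) (by omega))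
  have a2 : x k 2 < x j 2 := a1.trans_le (mono j (j + 1) (by omega) (by omega))
  exact disjoint_of_gt (c := x k 2) a2 a1 le_rfl (mono k (k + 1) (by omega) (by omega))

/-- Coefficients of the vertices in terms of the links. -/
noncomputable def plainCoef (l : ℕ → ℝ) (i k : ℕ) : ℝ := if k < i then l k else 0

lemma plainReal_lin {n : ℕ} (l : ℕ → ℝ) (w : ℕ → E3) :
    PlainReal n l w (lin (n - 1) (plainCoef l) w) := by
  intro i hi
  refine lin_sub (by omega) ?_
  intro k _
  unfold plainCoef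
  rcases lt_trichotomy k i with h | h | h
  · rw [if_pos (show k < i + 1 by omega), if_pos h, if_neg (show ¬ k = i by omega), sub_self]
  · subst h
    rw [if_pos (show k < k + 1 by omega), if_neg (show ¬ k < k by omega), if_pos rfl, sub_zero]
  · rw [if_neg (show ¬ k < i + 1 by omega), if_neg (show ¬ k < i by omega),
      if_neg (show ¬ k = i by omega), sub_self]

lemma PlainReal.eq_add {n : ℕ} {l : ℕ → ℝ} {w x y : ℕ → E3} (hx : PlainReal n l w x)
    (hy : PlainReal n l w y) : ∀ i ≤ n, x i = y i + (x 0 - y 0) := by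
  intro i
  induction i with
  | zero => intro _; abel
  | succ i ih =>
    intro hin
    have h1 := hx i (by omega)
    have h2 := hy i (by omega)
    have h3 := ih (by omega)
    have h4 : x (i + 1) = x i + (y (i + 1) - y i) := by rw [h2, ← h1]; abel
    rw [h4, h3]; abel

/-- The turn angle at the joint `k`. -/
noncomputable def turn0 {n : ℕ} (P : Fin (n + 1) → E3) (k : ℕ) : ℝ :=
  π - ∠ (pt P k) (pt P (k + 1)) (pt P (k + 2))

/-- The directions of the links. -/
noncomputable def dirs0 {n : ℕ} (P : Fin (n + 1) → E3) (k : ℕ) : E3 :=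
  (dist (pt P k) (pt P (k + 1)))⁻¹ • (pt P (k + 1) - pt P k)

section

variable {n : ℕ} {P : Fin (n + 1) → E3}

lemma plainReal_pt (hP : IsSimple P) :
    PlainReal n (fun k => dist (pt P k) (pt P (k + 1))) (dirs0 P) (pt P) := by
  intro k hk
  have h := (dist_pos0 hP (k := k) hk).ne'
  unfold dirs0
  rw [smul_smul, mul_inv_cancel₀ h, one_smul]

lemma norm_dirs0 (hP : IsSimple P) {k : ℕ} (hk : k < n) : ‖dirs0 P k‖ = 1 := by
  have h1 : dist (pt P k) (pt P (k + 1)) ≠ 0 := (dist_pos0 hP hk).ne'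
  unfold dirs0
  rw [norm_smul, norm_inv, Real.norm_eq_abs, abs_of_nonneg dist_nonneg,
    ← dist_eq_norm (pt P (k + 1)), dist_comm (pt P (k + 1)), inv_mul_cancel₀ h1]

lemma turn0_bounds (hP : IsSimple P) {k : ℕ} (hk : k + 1 < n) :
    0 ≤ turn0 P k ∧ turn0 P k < π := by
  unfold turn0
  have h2 := simple_angle hP hk
  have h3 := EuclideanGeometry.angle_nonneg (pt P k) (pt P (k + 1)) (pt P (k + 2))
  have h4 := EuclideanGeometry.angle_le_pi (pt P k) (pt P (k + 1)) (pt P (k + 2))
  have h5 : 0 < ∠ (pt P k) (pt P (k + 1)) (pt P (k + 2)) := lt_of_le_of_ne h3 h2.symm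
  exact ⟨by linarith, by linarith⟩

lemma inner_dirs0 (hP : IsSimple P) {k : ℕ} (hk : k + 1 < n) :
    ⟪dirs0 P k, dirs0 P (k + 1)⟫ = cos (turn0 P k) := by
  have e : ∀ a b : E3, dist a b = ‖b - a‖ := fun a b => by rw [dist_comm, dist_eq_norm]
  have s : ∀ a b : E3, a ≠ b → b - a ≠ 0 := fun a b h => sub_ne_zero.2 h.symm
  unfold dirs0 turn0
  rw [cos_angle_normalized (e _ _) (e _ _) (s _ _ (simple_ne hP (by omega)))
    (s _ _ (simple_ne hP (by omega)))]
  unfold EuclideanGeometry.angle
  rw [vsub_eq_sub, vsub_eq_sub, ← neg_sub (pt P (k + 1)) (pt P k),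
    InnerProductGeometry.angle_neg_left]
  congr 1
  ring

lemma orth_dirs0 {ν : E3} (h : ∀ i j : ℕ, ⟪ν, pt P i - pt P j⟫ = 0) (k : ℕ) :
    ⟪ν, dirs0 P k⟫ = 0 := by
  unfold dirs0
  rw [real_inner_smul_right, h, mul_zero]

end

/-- Chains with at most three links. -/
theorem joined_three {n : ℕ} (hn1 : 1 ≤ n) (hn3 : n ≤ 3) {P Q : Fin (n + 1) → E3}
    (hP : IsSimple P) (hQ : IsSimple Q) (cP : Coplanar ℝ (Set.range P))
    (cQ : Coplanar ℝ (Set.range Q)) (hPQ : SameChain Q P) :
    JoinedIn {p | IsSimple p ∧ SameChain p P} P Q := by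
  obtain ⟨ν, hν, hνP⟩ := exists_normal cP
  obtain ⟨μ, hμ, hμQ⟩ := exists_normal cQ
  obtain ⟨d1, a1⟩ := (sameChain_iff Q P).1 hPQ
  set l : ℕ → ℝ := fun k => dist (pt P k) (pt P (k + 1)) with hl
  have rP : PlainReal n l (dirs0 P) (pt P) := plainReal_pt hP
  have rQ : PlainReal n l (dirs0 Q) (pt Q) := by
    intro k hk
    rw [plainReal_pt hQ k hk]
    simp only [hl]
    rw [d1 k hk]
  have hτ : ∀ k < n - 1, 0 ≤ turn0 P k ∧ turn0 P k < π := fun k hk => turn0_bounds hP (by omega)
  have hpos : ∀ k < n, 0 < l k := fun k hk => dist_pos0 hP hk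
  refine core (m := n - 1) (τ := turn0 P) hτ (fun (i : Fin (n + 1)) k => plainCoef l i.val k)
    {p | IsSimple p ∧ SameChain p P} ?_ ?_ ⟨hP, SameChain.refl P⟩ ⟨hQ, hPQ⟩
    (u := dirs0 P) (v := dirs0 Q) (a := pt P 0 - lin (n - 1) (plainCoef l) (dirs0 P) 0)
    (b := pt Q 0 - lin (n - 1) (plainCoef l) (dirs0 Q) 0) ?_ ?_ ?_ ?_ ?_ ?_ hν hμ
    (fun k _ => orth_dirs0 hνP k) (fun k _ => orth_dirs0 hμQ k) ?_
  · rintro p ⟨h1, h2⟩ g c
    exact ⟨isSimple_rigid h1 g c, (sameChain_rigid p g c).trans h2⟩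
  · intro w hw
    set x : ℕ → E3 := lin (n - 1) (plainCoef l) w with hx
    set p : Fin (n + 1) → E3 :=
      lin (n - 1) (fun (i : Fin (n + 1)) k => plainCoef l i.val k) w with hp
    have hpx : ∀ k ≤ n, pt p k = x k := by
      intro k hk
      have : min k n = k := min_eq_left hk
      simp only [pt, hp, hx, lin]
      rw [this]
    have rx : PlainReal n l w x := plainReal_lin l w
    have hnorm : ∀ k < n, ‖w k‖ = ‖dirs0 P k‖ := by
      intro k hk
      rw [hw.norm k (by omega), norm_dirs0 hP hk]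
    have hinner : ∀ k, k + 1 < n → ⟪w k, w (k + 1)⟫ = ⟪dirs0 P k, dirs0 P (k + 1)⟫ := by
      intro k hk
      rw [hw.inner k (by omega), inner_dirs0 hP (by omega)]
    have hdist : ∀ k < n, dist (x k) (x (k + 1)) = dist (pt P k) (pt P (k + 1)) := by
      intro k hk
      rw [dist_comm, dist_comm (pt P k), dist_eq_norm, dist_eq_norm, rx k hk, rP k hk, norm_smul,
        norm_smul, hnorm k hk]
    have hang : ∀ k, k + 1 < n → ∠ (x k) (x (k + 1)) (x (k + 2)) =
        ∠ (pt P k) (pt P (k + 1)) (pt P (k + 2)) := fun k hk =>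
      rx.diffs.angle_eq rP.diffs hnorm hinner hk
    constructor
    · rw [isSimple_iff]
      refine ⟨?_, ?_, ?_⟩
      · intro k hk
        rw [hpx k hk.le, hpx (k + 1) hk, ← dist_pos, hdist k hk]
        exact dist_pos0 hP hk
      · intro j k hjk hk
        rw [hpx j (by omega), hpx (j + 1) (by omega), hpx k (by omega), hpx (k + 1) (by omega)]
        exact rx.disjoint hpos (fun k hk => hw.neg k (by omega)) hjk hk
      · intro k hk
        rw [hpx k (by omega), hpx (k + 1) (by omega), hpx (k + 2) (by omega)]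
        refine inter_subset_of_angle ?_
        rw [hang k hk]
        exact simple_angle hP hk
    · rw [sameChain_iff]
      refine ⟨?_, ?_⟩
      · intro k hk
        rw [hpx k hk.le, hpx (k + 1) hk]
        exact hdist k hk
      · intro k hk
        rw [hpx k (by omega), hpx (k + 1) (by omega), hpx (k + 2) (by omega)]
        exact hang k hk
  · intro i
    have := rP.eq_add (plainReal_lin l (dirs0 P)) i.val (by omega)
    rw [pt_val P i]
    exact this
  · intro i
    have := rQ.eq_add (plainReal_lin l (dirs0 Q)) i.val (by omega)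
    rw [pt_val Q i]
    exact this
  · intro k hk
    exact norm_dirs0 hP (by omega)
  · intro k hk
    exact norm_dirs0 hQ (by omega)
  · intro k hk
    exact inner_dirs0 hP (by omega)
  · intro k hk
    rw [inner_dirs0 hQ (by omega)]
    unfold turn0
    rw [a1 k (by omega)]
  · intro i j hij hj hpi hpj
    obtain ⟨a, b, ha, hb, hbm, -, -, -⟩ := hpi
    omega

/-- The general statement. -/
theorem joined_all {n : ℕ} {P Q : Fin (n + 1) → E3} (hP : IsSimple P)
    (hQ : IsSimple Q) (cP : Coplanar ℝ (Set.range P)) (cQ : Coplanar ℝ (Set.range Q))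
    (hPQ : SameChain Q P)
    (hs : ∀ i j, i < j → PinchedJoint P i → PinchedJoint P j →
      turnProduct P i j = turnProduct Q i j) :
    JoinedIn {p | IsSimple p ∧ SameChain p P} P Q := by
  rcases Nat.lt_or_ge n 4 with h | h
  · rcases Nat.eq_zero_or_pos n with h0 | h0
    · subst h0
      have hinv : ∀ p ∈ {p | IsSimple p ∧ SameChain p P}, ∀ (g : E3 ≃ₗᵢ[ℝ] E3) (c : E3),
          (fun i => g (p i) + c) ∈ {p | IsSimple p ∧ SameChain p P} := by
        rintro p ⟨h1, h2⟩ g c
        exact ⟨isSimple_rigid h1 g c, (sameChain_rigid p g c).trans h2⟩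
      have := joined_translate {p | IsSimple p ∧ SameChain p P} hinv ⟨hP, SameChain.refl P⟩
        (Q 0 - P 0)
      have e : (fun i => P i + (Q 0 - P 0)) = Q := by
        funext i
        have : i = 0 := by
          ext
          have := i.isLt
          simp only [Fin.val_zero]
          omega
        rw [this]; abel
      rwa [e] at this
    · exact joined_three h0 (by omega) hP hQ cP cQ hPQ
  · exact joined_four h hP hQ cP cQ hPQ hs

/-- From a path to a motion with parameter in `ℝ`. -/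
lemma motion_of_joined {n : ℕ} {P Q : Fin (n + 1) → E3}
    (h : JoinedIn {p | IsSimple p ∧ SameChain p P} P Q) :
    ∃ γ : ℝ → (Fin (n + 1) → E3), Continuous γ ∧ γ 0 = P ∧ γ 1 = Q ∧
      ∀ t ∈ Set.Icc (0 : ℝ) 1, IsSimple (γ t) ∧ SameChain (γ t) P := by
  obtain ⟨γ, hγ⟩ := h
  refine ⟨γ.extend, γ.continuous_extend, γ.extend_zero, γ.extend_one, ?_⟩
  intro t ht
  rw [γ.extend_apply ht]
  exact hγ _

end Pool.Agent.Helper214_flat
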