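import Mathlib
import Pool.Agent.Helper214_flat.Small

set_option autoImplicit false

open scoped RealInnerProductSpace
open Real Finset EuclideanGeometry

namespace Pool.Agent.Helper214_flat

/-- Two adjacent joints are never both pinched. -/
lemma not_pinched_succ {m : ℕ} {τ : ℕ → ℝ} (hτ : ∀ k < m, 0 ≤ τ k ∧ τ k < π) {i : ℕ}
    (h1 : Pinched m τ i) (h2 : Pinched m τ (i + 1)) : False := by
  obtain ⟨a, b, ha, hb, hbm, x1, x2, x3⟩ := h1
  obtain ⟨a', b', ha', hb', hbm', y1, y2, y3⟩ := h2
  have hmem : ∀ (s t j : ℕ), s < j → j < t → t ≤ m → τ j ≤ ∑ k ∈ Ioo s t, τ k := by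
    intro s t j hs ht htm
    exact single_le_sum (f := τ) (fun k hk => (hτ k (by have := (mem_Ioo.1 hk).2; omega)).1)
      (mem_Ioo.2 ⟨hs, ht⟩)
  have hmem2 : ∀ (s t j : ℕ), s < j → j + 1 < t → t ≤ m → τ j + τ (j + 1) ≤
      ∑ k ∈ Ioo s t, τ k := by
    intro s t j hs ht htm
    have hsub : ({j, j + 1} : Finset ℕ) ⊆ Ioo s t := by
      intro k hk
      simp only [mem_insert, mem_singleton] at hk
      rw [mem_Ioo]
      omega
    have := sum_le_sum_of_subset_of_nonneg (f := τ) hsub
      (fun k hk _ => (hτ k (by have := (mem_Ioo.1 hk).2; omega)).1)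
    rwa [sum_pair (by omega)] at this
  have pa := (hτ a (by omega)).2
  have pb := (hτ b (by omega)).2
  have pa' := (hτ a' (by omega)).2
  have pb' := (hτ b' (by omega)).2
  rcases Nat.lt_or_ge (i + 1) b with hb1 | hb1
  · have e1 := hmem i b (i + 1) (by omega) hb1 hbm.le
    rcases Nat.lt_or_ge a' i with ha1 | ha1
    · have e2 := hmem a' (i + 1) i ha1 (by omega) (by omega)
      linarith
    · have : a' = i := by omega
      subst this
      have e3 := hmem2 a b a' ha hb1 hbm.le
      have e4 : 0 ≤ ∑ k ∈ Ioo a' (a' + 1), τ k :=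
        sum_nonneg fun k hk => (hτ k (by have := (mem_Ioo.1 hk).2; omega)).1
      linarith
  · have : b = i + 1 := by omega
    subst this
    have e1 := hmem a (i + 1) i ha (by omega) (by omega)
    have e4 : 0 ≤ ∑ k ∈ Ioo i (i + 1), τ k :=
      sum_nonneg fun k hk => (hτ k (by have := (mem_Ioo.1 hk).2; omega)).1
    rcases Nat.lt_or_ge a' i with ha1 | ha1
    · have e3 := hmem2 a' b' i ha1 hb' hbm'.le
      linarith
    · have : a' = i := by omega
      subst this
      have e3 := hmem a' b' (a' + 1) (by omega) hb' hbm'.le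
      linarith

/-- If `i < j` are both pinched, then their witnesses are not nested around both of them. -/
lemma not_pinched_nested {m : ℕ} {τ : ℕ → ℝ} (hτ : ∀ k < m, 0 ≤ τ k ∧ τ k < π) {i j a b : ℕ}
    (hai : a < i) (hij : i < j) (hjb : j < b) (hbm : b < m)
    (h1 : (π - τ b) + ∑ k ∈ Ioo i b, τ k ≤ τ i) (h2 : (π - τ a) + ∑ k ∈ Ioo a j, τ k ≤ τ j) :
    False := by
  have hmem : ∀ (s t j : ℕ), s < j → j < t → t ≤ m → τ j ≤ ∑ k ∈ Ioo s t, τ k := by
    intro s t j hs ht htm
    exact single_le_sum (f := τ) (fun k hk => (hτ k (by have := (mem_Ioo.1 hk).2; omega)).1)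
      (mem_Ioo.2 ⟨hs, ht⟩)
  have e1 := hmem i b j hij hjb hbm.le
  have e2 := hmem a j i hai hij (by omega)
  linarith [(hτ a (by omega)).2, (hτ b hbm).2]

/-- Both witnesses of a pinched joint come from small angles. -/
lemma pinched_witness {m : ℕ} {τ : ℕ → ℝ} (hτ : ∀ k < m, 0 ≤ τ k ∧ τ k < π) {i : ℕ}
    (h : Pinched m τ i) : ∃ a b : ℕ, a < i ∧ i < b ∧ b < m ∧
      (π - τ a) + ∑ k ∈ Ioo a i, τ k ≤ τ i ∧ (π - τ b) + ∑ k ∈ Ioo i b, τ k ≤ τ i ∧
      (π - τ a) + (π - τ b) + τ i ≤ π ∧ π - τ a ≤ τ i ∧ π - τ b ≤ τ i := by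
  obtain ⟨a, b, ha, hb, hbm, x1, x2, x3⟩ := h
  have hnn : ∀ s t : ℕ, t ≤ m → 0 ≤ ∑ k ∈ Ioo s t, τ k := fun s t ht =>
    sum_nonneg fun k hk => (hτ k (by have := (mem_Ioo.1 hk).2; omega)).1
  have e1 : τ i ≤ ∑ k ∈ Ioo a b, τ k :=
    single_le_sum (f := τ) (fun k hk => (hτ k (by have := (mem_Ioo.1 hk).2; omega)).1)
      (mem_Ioo.2 ⟨ha, hb⟩)
  exact ⟨a, b, ha, hb, hbm, x1, x2, by linarith, by linarith [hnn a i (by omega)],
    by linarith [hnn i b hbm.le]⟩

section

variable {n : ℕ} {P : Fin (n + 1) → E3}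

/-- The reduced turn angle is at most `π` minus the joint angle. -/
lemma turn_le (hP : IsSimple P) {k : ℕ} (hk : k + 1 < n) :
    turn P k ≤ π - ∠ (pt P k) (pt P (k + 1)) (pt P (k + 2)) := by
  unfold turn
  split_ifs with h0 h1
  · subst h0
    have h := EuclideanGeometry.angle_add_angle_add_angle_eq_pi (p₁ := pt P 0) (p₂ := pt P 1)
      (pt P 2) (simple_ne hP (k := 0) (by omega)).symm
    have h2 := EuclideanGeometry.angle_comm (pt P 0) (pt P 2) (pt P 1)
    have h3 := EuclideanGeometry.angle_nonneg (pt P 2) (pt P 0) (pt P 1)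
    simp only [Nat.zero_add]
    linarith
  · have h := EuclideanGeometry.angle_add_angle_add_angle_eq_pi (p₁ := pt P (k + 2))
      (p₂ := pt P (k + 1)) (pt P k) (simple_ne hP (k := k + 1) (by omega))
    have h2 := EuclideanGeometry.angle_comm (pt P (k + 1)) (pt P k) (pt P (k + 2))
    have h3 := EuclideanGeometry.angle_comm (pt P k) (pt P (k + 1)) (pt P (k + 2))
    have h4 := EuclideanGeometry.angle_nonneg (pt P k) (pt P (k + 2)) (pt P (k + 1))
    have e1 : pt P n = pt P (k + 2) := congrArg (pt P) (by omega)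
    have e2 : pt P (n - 2) = pt P k := congrArg (pt P) (by omega)
    have e3 : pt P (n - 1) = pt P (k + 1) := congrArg (pt P) (by omega)
    rw [e1, e2, e3]
    linarith
  · exact le_rfl

lemma turn_bounds' (hP : IsSimple P) (hn : 4 ≤ n) : ∀ k < n - 1, 0 ≤ turn P k ∧ turn P k < π :=
  fun _ hk => turn_bounds hP hn hk

lemma four_le_of_pinched {i : ℕ} (h : PinchedJoint P i) : 4 ≤ n := by
  obtain ⟨a, b, ha, hb, hbm, -, -, -⟩ := h
  omega

/-- If all the joint angles exceed `π / 3`, then no joint is pinched. -/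
lemma not_pinched_of_sixty (hP : IsSimple P)
    (h : ∀ k, k + 1 < n → π / 3 < ∠ (pt P k) (pt P (k + 1)) (pt P (k + 2))) (i : ℕ) :
    ¬ PinchedJoint P i := by
  intro hp
  have hn := four_le_of_pinched hp
  obtain ⟨a, b, ha, hb, hbm, -, -, x3, x4, x5⟩ := pinched_witness (turn_bounds' hP hn) hp
  have e1 := turn_le hP (k := a) (by omega)
  have e2 := turn_le hP (k := b) (by omega)
  have e3 := h a (by omega)
  have e4 := h b (by omega)
  linarith

/-- If no joint angle `θ i` satisfies `θ a + θ b ≤ θ i ≤ π - max (θ a) (θ b)` with `a < i < b`,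
then no joint is pinched. -/
lemma not_pinched_of_sum (hP : IsSimple P)
    (h : ∀ a i b, a < i → i < b → b + 1 < n →
      ∠ (pt P a) (pt P (a + 1)) (pt P (a + 2)) + ∠ (pt P b) (pt P (b + 1)) (pt P (b + 2)) ≤
        ∠ (pt P i) (pt P (i + 1)) (pt P (i + 2)) →
      π < ∠ (pt P i) (pt P (i + 1)) (pt P (i + 2)) +
        max (∠ (pt P a) (pt P (a + 1)) (pt P (a + 2)))
          (∠ (pt P b) (pt P (b + 1)) (pt P (b + 2)))) (i : ℕ) :
    ¬ PinchedJoint P i := by
  intro hp
  have hn := four_le_of_pinched hp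
  obtain ⟨a, b, ha, hb, hbm, -, -, x3, x4, x5⟩ := pinched_witness (turn_bounds' hP hn) hp
  have e1 := turn_le hP (k := a) (by omega)
  have e2 := turn_le hP (k := b) (by omega)
  have e3 : turn P i = π - ∠ (pt P i) (pt P (i + 1)) (pt P (i + 2)) := by
    unfold turn
    rw [if_neg (by omega), if_neg (by omega)]
  rw [e3] at x3 x4 x5
  have h1 := h a i b ha hb (by omega) (by linarith)
  rcases le_total (∠ (pt P a) (pt P (a + 1)) (pt P (a + 2)))
    (∠ (pt P b) (pt P (b + 1)) (pt P (b + 2))) with h2 | h2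
  · rw [max_eq_right h2] at h1
    linarith
  · rw [max_eq_left h2] at h1
    linarith

/-- With at most two acute joint angles there is at most one pinched joint. -/
lemma not_two_pinched_of_acute (hP : IsSimple P) {p q : ℕ}
    (h : ∀ k, k + 1 < n → k ≠ p → k ≠ q → π / 2 ≤ ∠ (pt P k) (pt P (k + 1)) (pt P (k + 2)))
    {i j : ℕ} (hij : i < j) (hi : PinchedJoint P i) (hj : PinchedJoint P j) : False := by
  have hn := four_le_of_pinched hi
  have key : ∀ k < n - 1, k ≠ p → k ≠ q → turn P k ≤ π / 2 := by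
    intro k hk hkp hkq
    have e1 := turn_le hP (k := k) (by omega)
    have e2 := h k (by omega) hkp hkq
    linarith
  have hτ := turn_bounds' hP hn
  obtain ⟨a, b, ha, hb, hbm, x1, x2, x3, x4, x5⟩ := pinched_witness hτ hi
  obtain ⟨a', b', ha', hb', hbm', y1, y2, y3, y4, y5⟩ := pinched_witness hτ hj
  have w : ∀ s t i : ℕ, s < n - 1 → t < n - 1 → (π - turn P s) + (π - turn P t) + turn P i ≤ π →
      π - turn P s ≤ turn P i → s = p ∨ s = q := by
    intro s t i hs ht h1 h2
    by_contra hcon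
    push Not at hcon
    have := key s hs hcon.1 hcon.2
    have := (hτ t ht).2
    linarith
  have wa := w a b i (by omega) hbm x3 x4
  have wb := w b a i hbm (by omega) (by linarith) x5
  have wa' := w a' b' j (by omega) hbm' y3 y4
  have wb' := w b' a' j hbm' (by omega) (by linarith) y5
  have haa : a = a' ∧ b = b' := by omega
  obtain ⟨rfl, rfl⟩ := haa
  exact not_pinched_nested hτ ha hij hb' hbm x2 y1

/-- With at most five links there is at most one pinched joint. -/
lemma not_two_pinched_of_five (hP : IsSimple P) (hn5 : n ≤ 5) {i j : ℕ} (hij : i < j)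
    (hi : PinchedJoint P i) (hj : PinchedJoint P j) : False := by
  have hn := four_le_of_pinched hi
  have hτ := turn_bounds' hP hn
  have hj' : j = i + 1 := by
    obtain ⟨a, b, ha, hb, hbm, -, -, -⟩ := hi
    obtain ⟨a', b', ha', hb', hbm', -, -, -⟩ := hj
    omega
  subst hj'
  exact not_pinched_succ hτ hi hj

lemma tri_acute {a b c : E3} (hac : a ≠ c) (h : dist a b ≤ dist b c) :
    ∠ a c b < π / 2 := by
  rw [← not_le]
  intro h1
  have h2 : ⟪a - c, b - c⟫ ≤ 0 := by
    have h3 := InnerProductGeometry.cos_angle_mul_norm_mul_norm (a - c) (b - c)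
    have h4 : cos (InnerProductGeometry.angle (a - c) (b - c)) ≤ 0 :=
      cos_nonpos_of_pi_div_two_le_of_le h1
        (by linarith [InnerProductGeometry.angle_le_pi (a - c) (b - c), pi_pos])
    have h5 : 0 ≤ ‖a - c‖ * ‖b - c‖ := by positivity
    nlinarith
  have h6 : ‖a - b‖ ^ 2 = ‖a - c‖ ^ 2 + ‖b - c‖ ^ 2 - 2 * ⟪a - c, b - c⟫ := by
    have : a - b = (a - c) - (b - c) := by abel
    rw [this, norm_sub_sq_real]; ring
  have h7 : 0 < ‖a - c‖ := norm_pos_iff.2 (sub_ne_zero.2 hac)
  rw [dist_eq_norm, dist_eq_norm] at h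
  have h8 : ‖a - b‖ ^ 2 ≤ ‖b - c‖ ^ 2 := by
    have := norm_nonneg (a - b)
    nlinarith
  nlinarith

/-- With at most seven links, and with end links not longer than their neighbours, there is at
most one pinched joint. -/
lemma not_two_pinched_of_seven (hP : IsSimple P) (hn7 : n ≤ 7)
    (h0 : dist (pt P 0) (pt P 1) ≤ dist (pt P 1) (pt P 2))
    (h1 : dist (pt P (n - 1)) (pt P n) ≤ dist (pt P (n - 2)) (pt P (n - 1))) {i j : ℕ}
    (hij : i < j) (hi : PinchedJoint P i) (hj : PinchedJoint P j) : False := by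
  have hn := four_le_of_pinched hi
  have hτ := turn_bounds' hP hn
  have e0 : turn P 0 < π / 2 := by
    unfold turn
    rw [if_pos rfl]
    exact tri_acute (simple_ne2 hP (k := 0) (by omega)) h0
  have e1 : turn P (n - 2) < π / 2 := by
    unfold turn
    rw [if_neg (show ¬ n - 2 = 0 by omega), if_pos (show n - 2 + 2 = n by omega)]
    have a1 := simple_ne2 hP (k := n - 2) (by omega)
    rw [show n - 2 + 2 = n by omega] at a1
    refine tri_acute a1.symm ?_
    rw [dist_comm, dist_comm (pt P (n - 1)) (pt P (n - 2))]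
    exact h1
  have key : ∀ i, PinchedJoint P i → 2 ≤ i ∧ i + 4 ≤ n := by
    intro i hi
    obtain ⟨a, b, ha, hb, hbm, x1, x2, x3, x4, x5⟩ := pinched_witness hτ hi
    have p1 := (hτ a (by omega)).2
    have p2 := (hτ b hbm).2
    constructor
    · by_contra hcon
      have : a = 0 := by omega
      subst this
      linarith
    · by_contra hcon
      have : b = n - 2 := by omega
      subst this
      linarith
  have k1 := key i hi
  have k2 := key j hj
  have hj' : j = i + 1 := by omega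
  subst hj'
  exact not_pinched_succ hτ hi hj

end

end Pool.Agent.Helper214_flat
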